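import Pool.Agent.Lib_helper72.K7.H
import Pool.Agent.Lib_helper72.KC.P

/-!
# A point of order seven: translations on exponents
-/

set_option autoImplicit false
set_option linter.unusedSectionVars false
set_option linter.unusedSimpArgs false
set_option linter.unusedVariables false

open scoped TensorProduct

namespace Pool.Agent.K7

open KC72 TN MK4

/-- the basis at the next point, on exponents -/
def nxtM (B C T1 : Mo) (u : ℕ → Mo) : ℕ → Mo
  | 0 => (B.mul (u 3)).div ((u 0).mul (u 0))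
  | 1 => ((B.mul ((u 3).mul (u 4))).div ((u 1).mul ((u 0).mul (u 0)))).neg
  | 2 => ((C.mul ((u 4).mul (u 5))).div ((u 2).mul ((u 0).mul (u 0)))).neg
  | 3 => ((B.mul B).mul ((u 3).mul (u 4))).div ((u 1).mul ((u 0).mul ((u 0).mul (u 0))))
  | 4 => (((B.mul C).mul ((u 3).mul ((u 4).mul (u 5)))).div
      ((u 1).mul ((u 2).mul ((u 0).mul ((u 0).mul (u 0)))))).neg
  | _ => (((B.mul T1).mul ((u 4).mul ((u 4).mul (u 5)))).div
      ((u 2).mul ((u 2).mul ((u 0).mul ((u 0).mul (u 0)))))).neg

/-- the basis after `i` translations, on exponents -/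
def dd (B C T1 : Mo) (u : ℕ → Mo) : ℕ → ℕ → Mo
  | 0 => u
  | i + 1 => nxtM B C T1 (dd B C T1 u i)

section

variable {k : Type*} [Field k] {F : Type*} [Field F] [Algebra k F] {t : k} {x y : F}

/-- translations on exponents -/
theorem shiftM [CharZero k] (ht : t ≠ 0) (ht1 : t ≠ 1) (h : Gen (bb t) (cc t) x y) {g : List F}
    (hg : ∀ z ∈ g, z ≠ 0) {B C T1 : Mo} {u : ℕ → Mo} (hB : KC72.ev g B = algebraMap k F (bb t))
    (hC : KC72.ev g C = algebraMap k F (cc t)) (hT1 : KC72.ev g T1 = algebraMap k F (t - 1))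
    (hu : ∀ j : Fin 6, KC72.ev g (u j) = uF t x y j) (n : ℕ) :
    ∃ x' y' : F, Gen (bb t) (cc t) x' y' ∧ (∀ i, XF t x' y' i = XF t x y (i + n • 1)) ∧
      ∀ j : Fin 6, KC72.ev g (dd B C T1 u n j) = uF t x' y' j := by
  induction n with
  | zero => exact ⟨x, y, h, fun i => by simp, hu⟩
  | succ n ih =>
    obtain ⟨x', y', h', hi, hj⟩ := ih
    obtain ⟨e0, e1, e2, e3, e4, e5⟩ := uF_next ht ht1 h'
    refine ⟨nx t x' y', ny t x' y', Gen.next' ht ht1 h', fun i => ?_, ?_⟩
    · rw [XF_next ht ht1 h', hi]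
      congr 1
      rw [succ_nsmul]
      abel
    · have j0 : KC72.ev g (dd B C T1 u n 0) = uF t x' y' 0 := hj 0
      have j1 : KC72.ev g (dd B C T1 u n 1) = uF t x' y' 1 := hj 1
      have j2 : KC72.ev g (dd B C T1 u n 2) = uF t x' y' 2 := hj 2
      have j3 : KC72.ev g (dd B C T1 u n 3) = uF t x' y' 3 := hj 3
      have j4 : KC72.ev g (dd B C T1 u n 4) = uF t x' y' 4 := hj 4
      have j5 : KC72.ev g (dd B C T1 u n 5) = uF t x' y' 5 := hj 5
      intro j
      fin_cases j
      · show KC72.ev g (((B.mul (dd B C T1 u n 3)).div ((dd B C T1 u n 0).mul (dd B C T1 u n 0)))) =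
          uF t (nx t x' y') (ny t x' y') 0
        rw [e0]
        simp only [ev_neg, ev_div hg, ev_mul hg, hB, hC, hT1, j0, j1, j2, j3, j4, j5]
        ring
      · show KC72.ev g (((B.mul ((dd B C T1 u n 3).mul (dd B C T1 u n 4))).div
          ((dd B C T1 u n 1).mul ((dd B C T1 u n 0).mul (dd B C T1 u n 0)))).neg) =
          uF t (nx t x' y') (ny t x' y') 1
        rw [e1]
        simp only [ev_neg, ev_div hg, ev_mul hg, hB, hC, hT1, j0, j1, j2, j3, j4, j5]
        ring
      · show KC72.ev g (((C.mul ((dd B C T1 u n 4).mul (dd B C T1 u n 5))).div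
          ((dd B C T1 u n 2).mul ((dd B C T1 u n 0).mul (dd B C T1 u n 0)))).neg) =
          uF t (nx t x' y') (ny t x' y') 2
        rw [e2]
        simp only [ev_neg, ev_div hg, ev_mul hg, hB, hC, hT1, j0, j1, j2, j3, j4, j5]
        ring
      · show KC72.ev g (((B.mul B).mul ((dd B C T1 u n 3).mul (dd B C T1 u n 4))).div
          ((dd B C T1 u n 1).mul ((dd B C T1 u n 0).mul ((dd B C T1 u n 0).mul
            (dd B C T1 u n 0))))) =
          uF t (nx t x' y') (ny t x' y') 3
        rw [e3]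
        simp only [ev_neg, ev_div hg, ev_mul hg, hB, hC, hT1, j0, j1, j2, j3, j4, j5]
        ring
      · show KC72.ev g ((((B.mul C).mul ((dd B C T1 u n 3).mul ((dd B C T1 u n 4).mul
          (dd B C T1 u n 5)))).div ((dd B C T1 u n 1).mul ((dd B C T1 u n 2).mul
          ((dd B C T1 u n 0).mul ((dd B C T1 u n 0).mul (dd B C T1 u n 0)))))).neg) =
          uF t (nx t x' y') (ny t x' y') 4
        rw [e4]
        simp only [ev_neg, ev_div hg, ev_mul hg, hB, hC, hT1, j0, j1, j2, j3, j4, j5]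
        ring
      · show KC72.ev g ((((B.mul T1).mul ((dd B C T1 u n 4).mul ((dd B C T1 u n 4).mul
          (dd B C T1 u n 5)))).div ((dd B C T1 u n 2).mul ((dd B C T1 u n 2).mul
          ((dd B C T1 u n 0).mul ((dd B C T1 u n 0).mul (dd B C T1 u n 0)))))).neg) =
          uF t (nx t x' y') (ny t x' y') 5
        rw [e5]
        simp only [ev_neg, ev_div hg, ev_mul hg, hB, hC, hT1, j0, j1, j2, j3, j4, j5]
        ring

/-- functions supported on the multiples of `P` -/
def U7 (t : k) (x y f : F) : Prop :=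
  ∃ (d : k) (n : Fin 6 → ℤ), d ≠ 0 ∧ f = algebraMap k F d * M7 t x y n

/-- the span of the `{f} ⊗ u`, `f` and `1 - f` supported on the multiples of `P` -/
noncomputable def Cu7 (t : k) (x y : F) : Submodule ℚ (HK F) :=
  Submodule.span ℚ {z | ∃ (f : F) (u : FT F), U7 t x y f ∧ U7 t x y (1 - f) ∧ z = MK4.hk (sy f) u}

end

end Pool.Agent.K7
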