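import Pool.Agent.Lib_helper72.K7.A

/-!
# A point of order seven: the units on the curve, their logarithmic derivatives
-/

set_option autoImplicit false
set_option linter.unusedSectionVars false
set_option linter.unusedSimpArgs false

namespace Pool.Agent.K7

open Polynomial WeierstrassCurve.Affine WithZero TN

section K

variable {k : Type*} [Field k] (t : k)

/-- the parameter `b` -/
def bb : k := t ^ 2 * (t - 1)

/-- the parameter `c` -/
def cc : k := t * (t - 1)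

/-- the curve with the point `(0,0)` of order seven -/
abbrev W7 : WeierstrassCurve.Affine k := Wt (bb t) (cc t)

/-- the basis of the units -/
noncomputable def uK : Fin 6 → K (W7 t) :=
  ![xK, xK - cK (bb t), xK - cK (cc t), yK, yK - cK (cc t) * xK, yK - cK (t - 1) * xK]

/-- the orders of the basis at `0, P, .., 6P` -/
def oU : Fin 6 → Fin 7 → ℤ :=
  ![![-2, 1, 0, 0, 0, 0, 1], ![-2, 0, 1, 0, 0, 1, 0], ![-2, 0, 0, 1, 1, 0, 0],
    ![-3, 2, 0, 0, 0, 1, 0], ![-3, 1, 1, 0, 1, 0, 0], ![-3, 1, 0, 2, 0, 0, 0]]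

lemma LC_uK (j : Fin 6) : LC (uK t j) (- oU j 0) 1 := by
  fin_cases j
  · exact LC_x
  · exact LC_xc _
  · exact LC_xc _
  · exact LC_y
  · exact LC_yx _
  · exact LC_yx _

lemma uK_ne (j : Fin 6) : uK t j ≠ 0 := (LC_uK t j).ne

/-- the function with simple zeros at the six points -/
noncomputable def qK : K (W7 t) := xK * (xK - cK (bb t)) * (xK - cK (cc t))

/-- the coefficients of `q u'/u` -/
def rr : Fin 6 → Fin 7 → k :=
  ![![-1*t^8 + 3*t^7 - 3*t^6 + t^5, -1*t^7 + 4*t^6 - 3*t^5 - 2*t^4 + 2*t^3,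
      2*t^5 - 4*t^4 + 2*t^3, t^5 - 1*t^4 - 3*t^3 + 2*t^2 + t, -2*t^3 + 2*t, -1*t^2 + t + 1, 2],
    ![0, t^5 - 2*t^4 + t^3, 0, t^4 - 3*t^3 + t^2 + t, -2*t^2 + 2*t, -1*t^2 + t + 1, 2],
    ![0, t^6 - 2*t^5 + t^4, 0, t^5 - 2*t^4 - 1*t^3 + 2*t^2, -2*t^3 + 2*t^2, -1*t^2 + t + 1, 2],
    ![-2*t^8 + 6*t^7 - 6*t^6 + 2*t^5, -1*t^7 + 5*t^6 - 3*t^5 - 5*t^4 + 4*t^3,
      2*t^5 - 4*t^4 + 2*t^3, t^5 - 7*t^3 + 4*t^2 + 2*t, -2*t^3 - 1*t^2 + 3*t,
      -2*t^2 + 2*t + 2, 3],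
    ![-1*t^8 + 3*t^7 - 3*t^6 + t^5, -1*t^7 + 5*t^6 - 5*t^5 - 1*t^4 + 2*t^3,
      t^5 - 2*t^4 + t^3, t^5 - 1*t^4 - 5*t^3 + 4*t^2 + t, -2*t^3 + 2*t, -1*t^2 + t + 2, 3],
    ![-1*t^8 + 3*t^7 - 3*t^6 + t^5, 2*t^6 - 2*t^5 - 2*t^4 + 2*t^3, t^5 - 2*t^4 + t^3,
      2*t^5 - 5*t^4 + 2*t^2 + t, -3*t^3 + 2*t^2 + t, -2*t^2 + 3*t + 1, 3]]

lemma rr_top (j : Fin 6) : rr t j 6 = ((- oU j 0 : ℤ) : k) := by
  fin_cases j <;> simp [rr, oU]

/-- the coordinates of the points -/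
def ptx : Fin 7 → k := ![0, 0, bb t, cc t, cc t, bb t, 0]

/-- the coordinates of the points -/
def pty : Fin 7 → k := ![0, 0, bb t * cc t, bb t - cc t, cc t ^ 2, 0, bb t]

/-- the value at the point `iP` -/
def ev (i : Fin 7) (n : Fin 7 → k) : k :=
  n 0 + n 1 * ptx t i + n 2 * pty t i + n 3 * ptx t i ^ 2 + n 4 * (ptx t i * pty t i) +
    n 5 * ptx t i ^ 3 + n 6 * (ptx t i ^ 2 * pty t i)

/-- the derivative of `q` at the point `iP` -/
def qp : Fin 7 → k := ![0, -(t ^ 5 * (t - 1) ^ 3), t ^ 6 * (t - 1) ^ 5, t ^ 3 * (t - 1) ^ 6,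
  -(t ^ 3 * (t - 1) ^ 6), -(t ^ 6 * (t - 1) ^ 5), t ^ 5 * (t - 1) ^ 3]

lemma ev_add (i : Fin 7) (n m : Fin 7 → k) : ev t i (n + m) = ev t i n + ev t i m := by
  unfold ev; simp only [Pi.add_apply]; ring

lemma ev_sub (i : Fin 7) (n m : Fin 7 → k) : ev t i (n - m) = ev t i n - ev t i m := by
  unfold ev; simp only [Pi.sub_apply]; ring

lemma ev_smul (i : Fin 7) (a : k) (n : Fin 7 → k) : ev t i (a • n) = a * ev t i n := by
  unfold ev; simp only [Pi.smul_apply, smul_eq_mul]; ring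

lemma ev_zero (i : Fin 7) : ev t i (0 : Fin 7 → k) = 0 := by
  unfold ev; simp

lemma ev_sum {ι : Type*} (s : Finset ι) (i : Fin 7) (a : ι → k) (n : ι → Fin 7 → k) :
    ev t i (∑ j ∈ s, a j • n j) = ∑ j ∈ s, a j * ev t i (n j) := by
  classical
  induction s using Finset.induction_on with
  | empty => simpa using ev_zero t i
  | insert j s hj ih => rw [Finset.sum_insert hj, Finset.sum_insert hj, ev_add, ev_smul, ih]

lemma ev_rr (j : Fin 6) (i : Fin 7) (hi : i ≠ 0) : ev t i (rr t j) = (oU j i : k) * qp t i := by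
  fin_cases i
  · exact absurd rfl hi
  all_goals fin_cases j <;> simp [ev, rr, oU, qp, ptx, pty, bb, cc] <;> ring

lemma qp_ne (ht : t ≠ 0) (ht1 : t ≠ 1) (i : Fin 7) (hi : i ≠ 0) : qp t i ≠ 0 := by
  have h1 : t - 1 ≠ 0 := sub_ne_zero.mpr ht1
  fin_cases i
  · exact absurd rfl hi
  all_goals simp [qp, ht, h1]

lemma hdx : (dx : K (W7 t)) = 2 * yK + (1 - cK (cc t)) * xK - cK (bb t) := by
  show 2 * yK + cK (1 - cc t) * xK + cK (- bb t) = _
  rw [map_sub, map_one, map_neg]; ring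

lemma hdy : (dy : K (W7 t)) = 3 * xK ^ 2 - 2 * cK (bb t) * xK - (1 - cK (cc t)) * yK := by
  show 3 * xK ^ 2 + 2 * cK (- bb t) * xK + cK 0 - cK (1 - cc t) * yK = _
  rw [map_sub, map_one, map_neg, map_zero]; ring

lemma dv_cmul (a : k) (z : K (W7 t)) : dv (cK a * z) = cK a * dv z := by
  rw [dv_mul, dv_c, mul_zero, add_zero]

lemma dv_sub' (z w : K (W7 t)) : dv (z - w) = dv z - dv w := by
  have h := dv_add (z - w) w
  rw [sub_add_cancel] at h
  linear_combination -h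

/-- the derivatives of the basis -/
lemma dv_uK (j : Fin 6) : dv (uK t j) = (![dx, dx, dx, dy, dy - cK (cc t) * dx,
    dy - cK (t - 1) * dx] : Fin 6 → K (W7 t)) j := by
  fin_cases j
  · exact dv_x
  · exact (dv_sub_c _ _).trans dv_x
  · exact (dv_sub_c _ _).trans dv_x
  · exact dv_y
  · show dv (yK - cK (cc t) * xK) = dy - cK (cc t) * dx
    rw [dv_sub', dv_cmul, dv_x, dv_y]
  · show dv (yK - cK (t - 1) * xK) = dy - cK (t - 1) * dx
    rw [dv_sub', dv_cmul, dv_x, dv_y]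

lemma cbb : (cK (bb t) : K (W7 t)) = cK t ^ 2 * (cK t - 1) := by
  unfold bb; rw [map_mul, map_pow, map_sub, map_one]

lemma ccc : (cK (cc t) : K (W7 t)) = cK t * (cK t - 1) := by
  unfold cc; rw [map_mul, map_sub, map_one]

lemma eqW7 : (yK : K (W7 t)) ^ 2 + (1 - cK (cc t)) * xK * yK - cK (bb t) * yK =
    xK ^ 3 - cK (bb t) * xK ^ 2 := eqW

lemma ld_uK (j : Fin 6) : qK t * ld (uK t j) = NV (rr t j) := by
  have hu := uK_ne t j
  have he := eqW7 t
  have h1 := hdx t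
  have h2 := hdy t
  unfold ld
  rw [← mul_div_assoc, div_eq_iff hu, dv_uK]
  rw [cbb, ccc] at he h1 h2
  unfold qK
  rw [cbb, ccc]
  fin_cases j
  · simp [uK, NV, N7, rr, map_sub, map_add, map_mul, map_pow, map_neg, map_ofNat]
    rw [h1]; ring
  · simp [uK, NV, N7, rr, map_sub, map_add, map_mul, map_pow, map_neg, map_ofNat]
    rw [h1, cbb]; ring
  · simp [uK, NV, N7, rr, map_sub, map_add, map_mul, map_pow, map_neg, map_ofNat]
    rw [h1, ccc]; ring
  · simp [uK, NV, N7, rr, map_sub, map_add, map_mul, map_pow, map_neg, map_ofNat]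
    rw [h2]
    linear_combination (-2*(cK t)^5 + 4*(cK t)^4 + 2*(cK t)^3*xK - 2*(cK t)^3 + (cK t)^2*xK
      - 3*(cK t)*xK - 3*xK^2) * he
  · simp [uK, NV, N7, rr, map_sub, map_add, map_mul, map_pow, map_neg, map_ofNat]
    rw [h1, h2, ccc]
    linear_combination (-1*(cK t)^5 + 2*(cK t)^4 + 2*(cK t)^3*xK - 1*(cK t)^3 - 2*(cK t)*xK
      - 3*xK^2) * he
  · simp [uK, NV, N7, rr, map_sub, map_add, map_mul, map_pow, map_neg, map_ofNat]
    rw [h1, h2]
    linear_combination (-1*(cK t)^5 + 2*(cK t)^4 + 3*(cK t)^3*xK - 1*(cK t)^3 - 2*(cK t)^2*xK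
      - 1*(cK t)*xK - 3*xK^2) * he

/-! ### monomials -/

/-- a monomial -/
noncomputable def mo (n : Fin 6 → ℤ) : K (W7 t) := ∏ j, uK t j ^ n j

/-- the order at `iP` of a monomial -/
def Dn (n : Fin 6 → ℤ) (i : Fin 7) : ℤ := ∑ j, n j * oU j i

/-- the coefficients of `q f'/f` for a monomial `f` -/
noncomputable def RR (n : Fin 6 → ℤ) : Fin 7 → k := ∑ j, ((n j : ℤ) : k) • rr t j

lemma LC_mo (n : Fin 6 → ℤ) : LC (mo t n) (- Dn n 0) 1 := by
  have h := LC_prod Finset.univ (z := fun j => uK t j ^ n j) (n := fun j => n j * (- oU j 0))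
    (a := fun j => (1 : k) ^ n j) (fun j _ => (LC_uK t j).zpow (n j))
  simp only [one_zpow, Finset.prod_const_one] at h
  have e : - Dn n 0 = ∑ j, n j * (- oU j 0) := by
    unfold Dn; rw [← Finset.sum_neg_distrib]; exact Finset.sum_congr rfl fun j _ => by ring
  rw [e]; exact h

lemma mo_ne (n : Fin 6 → ℤ) : mo t n ≠ 0 := (LC_mo t n).ne

lemma ld_prod {ι : Type*} (s : Finset ι) (z : ι → K (W7 t)) (hz : ∀ i ∈ s, z i ≠ 0) :
    ld (∏ i ∈ s, z i) = ∑ i ∈ s, ld (z i) := by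
  classical
  induction s using Finset.induction_on with
  | empty => simpa using ld_one
  | insert i s hi ih =>
    have h1 := hz i (Finset.mem_insert_self _ _)
    have h2 : ∀ j ∈ s, z j ≠ 0 := fun j hj => hz j (Finset.mem_insert_of_mem hj)
    rw [Finset.prod_insert hi, Finset.sum_insert hi, ld_mul h1 (Finset.prod_ne_zero_iff.mpr h2),
      ih h2]

lemma ld_mo (n : Fin 6 → ℤ) : qK t * ld (mo t n) = NV (RR t n) := by
  unfold mo RR
  rw [ld_prod t _ _ (fun j _ => zpow_ne_zero _ (uK_ne t j)), NV_sum, Finset.mul_sum]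
  refine Finset.sum_congr rfl fun j _ => ?_
  rw [ld_zpow (uK_ne t j), ← ld_uK]
  have : (cK ((n j : ℤ) : k) : K (W7 t)) = ((n j : ℤ) : K (W7 t)) := map_intCast _ _
  rw [this]; ring

lemma RR_top (n : Fin 6 → ℤ) : RR t n 6 = ((- Dn n 0 : ℤ) : k) := by
  unfold RR Dn
  rw [Finset.sum_apply, ← Finset.sum_neg_distrib]
  push_cast
  refine Finset.sum_congr rfl fun j _ => ?_
  rw [Pi.smul_apply, smul_eq_mul, rr_top]; push_cast; ring

lemma ev_RR (n : Fin 6 → ℤ) (i : Fin 7) (hi : i ≠ 0) : ev t i (RR t n) = (Dn n i : k) * qp t i := by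
  unfold RR Dn
  rw [ev_sum, Int.cast_sum, Finset.sum_mul]
  refine Finset.sum_congr rfl fun j _ => ?_
  rw [ev_rr t j i hi]; push_cast; ring

/-- a function with `q f'/f` constant -/
lemma ev_const {n : Fin 7 → k} (h : ∀ j, j ≠ 0 → n j = 0) (i : Fin 7) : ev t i n = n 0 := by
  unfold ev
  rw [h 1 (by decide), h 2 (by decide), h 3 (by decide), h 4 (by decide), h 5 (by decide),
    h 6 (by decide)]
  ring

/-- **the bound at the origin** -/
theorem bound_K [CharZero k] (ht : t ≠ 0) (ht1 : t ≠ 1) {c₀ c₁ : k} (h0 : c₀ ≠ 0) (h1 : c₁ ≠ 0)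
    {n n' : Fin 6 → ℤ} (h : cK c₀ * mo t n + cK c₁ * mo t n' = 1) :
    (Dn n 0 = 0 ∧ Dn n' 0 = 0) ∨
    (1 ≤ Dn n 0 ∧ Dn n' 0 = 0 ∧ c₁ = 1 ∧
      (Dn n 0 ≤ 6 ∨ (Dn n 0 = 7 ∧ ∀ i, i ≠ 0 → Dn n' i ≠ 0))) ∨
    (Dn n 0 = 0 ∧ 1 ≤ Dn n' 0 ∧ c₀ = 1 ∧
      (Dn n' 0 ≤ 6 ∨ (Dn n' 0 = 7 ∧ ∀ i, i ≠ 0 → Dn n i ≠ 0))) ∨
    (Dn n 0 = Dn n' 0 ∧ Dn n 0 ≤ -1 ∧ c₀ = - c₁ ∧
      (-6 ≤ Dn n 0 ∨ (Dn n 0 = -7 ∧ ∀ i, i ≠ 0 → Dn n i ≠ Dn n' i))) := by
  have hc0 : (cK c₀ : K (W7 t)) ≠ 0 := ne_of_v (v_c h0)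
  have hc1 : (cK c₁ : K (W7 t)) ≠ 0 := ne_of_v (v_c h1)
  have Lf : LC (cK c₀ * mo t n) (- Dn n 0) c₀ := by
    have := (LC_c (W := W7 t) h0).mul (LC_mo t n); rwa [zero_add, mul_one] at this
  have Lg : LC (cK c₁ * mo t n') (- Dn n' 0) c₁ := by
    have := (LC_c (W := W7 t) h1).mul (LC_mo t n'); rwa [zero_add, mul_one] at this
  have lf : NV (RR t n) = qK t * ld (cK c₀ * mo t n) := by
    rw [ld_mul hc0 (mo_ne _ _), ld_c, zero_add, ld_mo]
  have lg : NV (RR t n') = qK t * ld (cK c₁ * mo t n') := by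
    rw [ld_mul hc1 (mo_ne _ _), ld_c, zero_add, ld_mo]
  have key : ∀ r : Fin 7 → k, (NV r : K (W7 t)) = 0 ∨ ∃ i : ℤ, v (NV r : K (W7 t)) = exp i := by
    intro r
    rcases v_NV (W := W7 t) r with rfl | ⟨i, hi, -⟩
    · exact Or.inl NV_zero
    · exact Or.inr ⟨i, hi⟩
  have top : ∀ {m : Fin 6 → ℤ}, RR t m 6 ≠ 0 ↔ Dn m 0 ≠ 0 := by
    intro m; rw [RR_top]
    constructor
    · intro h h'; apply h; rw [h']; simp
    · intro h h'; apply h; have := Int.cast_eq_zero.mp h'; omega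
  rcases wr2 h lf lg Lf.v_eq Lg.v_eq (key _) (key _) (by rw [← NV_sub]; exact key _) with
    ⟨h2, h3⟩ | ⟨i, j, l, hi, hj, hl, e1, e2, h2⟩
  · left
    constructor
    · by_contra hne
      exact top.mpr hne (by rw [NV_eq_zero h2]; rfl)
    · by_contra hne
      exact top.mpr hne (by rw [NV_eq_zero h3]; rfl)
  · -- the orders
    have info : ∀ {r : Fin 7 → k} {i : ℤ}, v (NV r : K (W7 t)) = exp i →
        0 ≤ i ∧ i ≤ 7 ∧ (i = 7 ↔ r 6 ≠ 0) ∧ (i = 0 → ∀ j, j ≠ 0 → r j = 0) ∧ r ≠ 0 := by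
      intro r i hi
      rcases v_NV (W := W7 t) r with rfl | ⟨i', hi', h3⟩
      · rw [NV_zero, map_zero] at hi; exact absurd hi.symm exp_ne_zero
      · rw [hi, exp_inj] at hi'; subst hi'
        refine ⟨h3.1, h3.2.1, h3.2.2.1, h3.2.2.2, ?_⟩
        rintro rfl
        rw [NV_zero, map_zero] at hi; exact exp_ne_zero hi.symm
    have I1 := info hi
    have I2 := info hj
    rw [← NV_sub] at hl
    have I3 := info hl
    have const_ne : ∀ {r : Fin 7 → k}, (∀ j, j ≠ 0 → r j = 0) → r ≠ 0 → r 0 ≠ 0 := by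
      intro r hr hne h'
      apply hne; funext j
      by_cases hj : j = 0
      · rw [hj]; exact h'
      · exact hr j hj
    -- values
    have val1 : Dn n 0 = 0 → Dn n' 0 ≥ 1 → c₀ = 1 := by
      intro a1 a2
      rw [a1, neg_zero] at Lf
      refine Lf.unique LC_one ?_
      have : cK c₀ * mo t n - 1 = - (cK c₁ * mo t n') := by rw [← h]; ring
      rw [this, Valuation.map_neg, Lg.v_eq, ← exp_zero, exp_lt_exp]; omega
    have val2 : Dn n' 0 = 0 → Dn n 0 ≥ 1 → c₁ = 1 := by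
      intro a1 a2
      rw [a1, neg_zero] at Lg
      refine Lg.unique LC_one ?_
      have : cK c₁ * mo t n' - 1 = - (cK c₀ * mo t n) := by rw [← h]; ring
      rw [this, Valuation.map_neg, Lf.v_eq, ← exp_zero, exp_lt_exp]; omega
    have val3 : Dn n 0 = Dn n' 0 → Dn n 0 ≤ -1 → c₀ = - c₁ := by
      intro a1 a2
      have L1 := Lf.div Lg
      rw [a1, sub_self] at L1
      have L2 : LC (-1 : K (W7 t)) 0 (-1) := by
        have := LC_c (W := W7 t) (a := -1) (neg_ne_zero.mpr one_ne_zero)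
        rwa [map_neg, map_one] at this
      have h3 : c₀ / c₁ = -1 := by
        refine L1.unique L2 ?_
        have hg := Lg.ne
        have : cK c₀ * mo t n / (cK c₁ * mo t n') - (-1) = 1 / (cK c₁ * mo t n') := by
          rw [sub_neg_eq_add, div_add_one hg, h]
        rw [this, map_div₀, map_one, Lg.v_eq, one_div, ← exp_neg, ← exp_zero, exp_lt_exp]; omega
      rw [div_eq_iff h1] at h3; rw [h3]; ring
    rcases h2 with h2 | h2 | h2 | h2
    · -- a pole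
      right; right; right
      refine ⟨by omega, by omega, val3 (by omega) (by omega), ?_⟩
      by_cases h6 : -6 ≤ Dn n 0
      · exact Or.inl h6
      · right
        have l0 : l = 0 := by omega
        refine ⟨by omega, fun m hm h' => ?_⟩
        have e3 := ev_const t (I3.2.2.2.1 l0) m
        rw [ev_sub, ev_RR t n m hm, ev_RR t n' m hm, h', sub_self] at e3
        exact const_ne (I3.2.2.2.1 l0) I3.2.2.2.2 e3.symm
    · left; omega
    · -- a zero of `f`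
      right; left
      refine ⟨by omega, by omega, val2 (by omega) (by omega), ?_⟩
      by_cases h6 : Dn n 0 ≤ 6
      · exact Or.inl h6
      · right
        have l0 : j = 0 := by omega
        refine ⟨by omega, fun m hm h' => ?_⟩
        have e3 := ev_const t (I2.2.2.2.1 l0) m
        rw [ev_RR t n' m hm, h', Int.cast_zero, zero_mul] at e3
        exact const_ne (I2.2.2.2.1 l0) I2.2.2.2.2 e3.symm
    · -- a zero of `g`
      right; right; left
      refine ⟨by omega, by omega, val1 (by omega) (by omega), ?_⟩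
      by_cases h6 : Dn n' 0 ≤ 6
      · exact Or.inl h6
      · right
        have l0 : i = 0 := by omega
        refine ⟨by omega, fun m hm h' => ?_⟩
        have e3 := ev_const t (I1.2.2.2.1 l0) m
        rw [ev_RR t n m hm, h', Int.cast_zero, zero_mul] at e3
        exact const_ne (I1.2.2.2.1 l0) I1.2.2.2.2 e3.symm

end K

end Pool.Agent.K7
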