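import Pool.Agent.Lib_helper72.K7.G

/-!
# A point of order seven: the unit equation in the basis `x, x - b, x - c, y, y - cx, y - (t-1)x`
-/

set_option autoImplicit false
set_option linter.unusedSectionVars false
set_option linter.unusedSimpArgs false
set_option linter.unusedVariables false

namespace Pool.Agent.K7

open Polynomial WeierstrassCurve.Affine WithZero TN

/-- a section of `NN` -/
def se : Fin 6 → Fin 7 → ℤ :=
  ![![1, 0, 0, 0, 0, 0, 0], ![2, 1, 0, 0, 0, 0, 1], ![3, 2, 1, 0, 0, 1, 2],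
    ![2, 1, 0, 0, 0, 0, 0], ![3, 2, 1, 0, 0, 0, 1], ![3, 2, 1, 0, -1, 0, 1]]

/-- exponents of the `X i` -/
def SE (n : Fin 6 → ℤ) (i : Fin 7) : ℤ := ∑ j, n j * se j i

lemma NN_SE (n : Fin 6 → ℤ) : NN (SE n) = n := by
  have key : ∀ j l : Fin 6, ∑ i, se j i * ex i l = if j = l then 1 else 0 := by decide
  funext l
  unfold NN SE
  have h1 : ∑ i, (∑ j, n j * se j i) * ex i l = ∑ j, n j * ∑ i, se j i * ex i l := by
    rw [show (∑ i, (∑ j, n j * se j i) * ex i l) = ∑ i, ∑ j, n j * (se j i * ex i l) from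
      Finset.sum_congr rfl fun i _ => by
        rw [Finset.sum_mul]; exact Finset.sum_congr rfl fun j _ => by ring, Finset.sum_comm]
    exact Finset.sum_congr rfl fun j _ => (Finset.mul_sum _ _ _).symm
  rw [h1]
  simp only [key, mul_ite, mul_one, mul_zero, Finset.sum_ite_eq', Finset.mem_univ, if_true]

section

variable {k : Type*} [Field k] {F : Type*} [Field F] [Algebra k F] {t : k} {x y : F}

variable (t x y) in
/-- monomials in the basis -/
def M7 (n : Fin 6 → ℤ) : F := ∏ j, uF t x y j ^ n j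

/-- monomials in the basis are monomials in the `X i` -/
lemma M7_eq (ht : t ≠ 0) (ht1 : t ≠ 1) (h : Gen (bb t) (cc t) x y) (n : Fin 6 → ℤ) :
    M7 t x y n = algebraMap k F (∏ i, lam t i ^ SE n i)⁻¹ * mon t x y (SE n) := by
  have h1 : (∏ i, lam t i ^ SE n i) ≠ 0 :=
    Finset.prod_ne_zero_iff.mpr fun i _ => zpow_ne_zero _ (lam_ne ht ht1 i)
  rw [mon_eq h, NN_SE, io_mo, ← mul_assoc, ← map_mul, inv_mul_cancel₀ h1, map_one, one_mul]
  rfl

/-- **the unit equation**, in the basis -/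
theorem unit_eq7' [CharZero k] (ht : t ≠ 0) (ht1 : t ≠ 1)
    (hind : ∀ m n : ℤ, t ^ m * (t - 1) ^ n = 1 → m = 0 ∧ n = 0)
    (h : Gen (bb t) (cc t) x y) {c₀ c₁ : k} (h0 : c₀ ≠ 0) (h1 : c₁ ≠ 0) {n n' : Fin 6 → ℤ}
    (hu : algebraMap k F c₀ * M7 t x y n + algebraMap k F c₁ * M7 t x y n' = 1) :
    (∃ s : k, algebraMap k F c₀ * M7 t x y n = algebraMap k F s) ∨
    ∃ i : Fin 7, ∃ r : Fin 4, Orb (TT t x y i r) (algebraMap k F c₀ * M7 t x y n) := by
  have l0 : ∀ n : Fin 6 → ℤ, (∏ i, lam t i ^ SE n i)⁻¹ ≠ 0 := fun n =>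
    inv_ne_zero (Finset.prod_ne_zero_iff.mpr fun i _ => zpow_ne_zero _ (lam_ne ht ht1 i))
  have key := unit_eq7 ht ht1 hind h (mul_ne_zero h0 (l0 n)) (mul_ne_zero h1 (l0 n'))
    (e := SE n) (e' := SE n')
  rw [map_mul, map_mul, mul_assoc, mul_assoc, ← M7_eq ht ht1 h, ← M7_eq ht ht1 h] at key
  exact key hu

/-- the orders of a constant vanish -/
lemma OO_const [CharZero k] (ht : t ≠ 0) (ht1 : t ≠ 1) (h : Gen (bb t) (cc t) x y)
    {e : Fin 7 → ℤ} {s : k} (hs : mon t x y e = algebraMap k F s) (σ : Fin 7) : OO e σ = 0 := by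
  obtain ⟨x', y', h', hx⟩ := exists_shift ht ht1 h σ
  rw [mon_shift σ hx e, mon_eq h', ← io_c h', ← io_c h', ← map_mul] at hs
  have e2 := io_inj h' hs
  set e' : Fin 7 → ℤ := fun i => e (i + σ) with he'
  have l0 : (∏ i, lam t i ^ e' i) ≠ 0 :=
    Finset.prod_ne_zero_iff.mpr fun i _ => zpow_ne_zero _ (lam_ne ht ht1 i)
  have l1 := (LC_c (W := W7 t) l0).mul (LC_mo (t := t) (NN e'))
  have s0 : s ≠ 0 := by
    rintro rfl
    rw [map_zero] at e2
    exact l1.ne e2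
  have v1 := l1.v_eq
  rw [e2, (LC_c (W := W7 t) s0).v_eq] at v1
  have v2 := exp_injective v1
  rw [Dn_NN] at v2
  have v3 := OO_shift e σ (-0)
  rw [neg_zero, zero_add] at v3
  rw [← v3, ← he']
  rw [neg_zero] at v2
  omega

/-- a monomial is constant only if its exponents vanish -/
lemma M7_const [CharZero k] (ht : t ≠ 0) (ht1 : t ≠ 1) (h : Gen (bb t) (cc t) x y)
    {n : Fin 6 → ℤ} {s : k} (hs : M7 t x y n = algebraMap k F s) : n = 0 := by
  have l0 : (∏ i, lam t i ^ SE n i) ≠ 0 :=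
    Finset.prod_ne_zero_iff.mpr fun i _ => zpow_ne_zero _ (lam_ne ht ht1 i)
  have h1 : mon t x y (SE n) = algebraMap k F ((∏ i, lam t i ^ SE n i) * s) := by
    rw [map_mul, ← hs, M7_eq ht ht1 h, ← mul_assoc, ← map_mul, mul_inv_cancel₀ l0, map_one,
      one_mul]
  have h2 := OO_const ht ht1 h h1
  have h3 : NN (SE n) = 0 := Dn_inj fun i => by
    rw [Dn_NN, h2]
    simp [Dn]
  rwa [NN_SE] at h3

end

end Pool.Agent.K7
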