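import Pool.Agent.Lib_helper24.TN.N4U

/-!
# Places, leading coefficients, a refined Wronskian bound
-/

set_option autoImplicit false
set_option linter.unusedSectionVars false

namespace Pool.Agent.K7

open Polynomial WeierstrassCurve.Affine WithZero TN

section Gen

variable {k : Type*} [Field k] {W : WeierstrassCurve.Affine k}

/-- **the Wronskian at infinity**: orders of `f`, `g = 1 - f` from the orders of `q f'/f`,
`q g'/g` and of their difference. -/
theorem wr2 {f g q A B : K W} (h : f + g = 1) (hA : A = q * ld f) (hB : B = q * ld g)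
    {n n' : ℤ} (hf : v (W := W) f = exp n) (hg : v (W := W) g = exp n')
    (a0 : A = 0 ∨ ∃ i : ℤ, v (W := W) A = exp i)
    (b0 : B = 0 ∨ ∃ i : ℤ, v (W := W) B = exp i)
    (c0 : A - B = 0 ∨ ∃ i : ℤ, v (W := W) (A - B) = exp i) :
    (A = 0 ∧ B = 0) ∨ ∃ i j l : ℤ, v (W := W) A = exp i ∧ v (W := W) B = exp j ∧
      v (W := W) (A - B) = exp l ∧ n + l = j ∧ n' + l = i ∧
      ((n = n' ∧ 1 ≤ n) ∨ (n = 0 ∧ n' = 0) ∨ (n ≤ -1 ∧ n' = 0) ∨ (n = 0 ∧ n' ≤ -1)) := by
  have hf0 : f ≠ 0 := ne_of_v hf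
  have hg0 : g ≠ 0 := ne_of_v hg
  have hd : f * ld f + g * ld g = 0 := by
    have h2 := congrArg dv h
    rw [dv_add, dv_one] at h2
    unfold ld
    rw [mul_div_cancel₀ _ hf0, mul_div_cancel₀ _ hg0]
    exact h2
  have hN : f * A + g * B = 0 := by rw [hA, hB]; linear_combination q * hd
  by_cases hA0 : A = 0
  · left
    refine ⟨hA0, ?_⟩
    rw [hA0, mul_zero, zero_add] at hN
    exact (mul_eq_zero.mp hN).resolve_left hg0
  right
  obtain ⟨i, hi'⟩ := a0.resolve_left hA0
  have hB0 : B ≠ 0 := by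
    intro h'
    rw [h', mul_zero, add_zero] at hN
    exact mul_ne_zero hf0 hA0 hN
  obtain ⟨j, hj⟩ := b0.resolve_left hB0
  have hS0 : A - B ≠ 0 := by
    intro h'
    have h2 : A = B := sub_eq_zero.mp h'
    apply hB0
    rw [h2, ← add_mul, h, one_mul] at hN
    exact hN
  obtain ⟨l, hl⟩ := c0.resolve_left hS0
  have hg1 : g = 1 - f := by rw [← h]; ring
  have e1 : f * (A - B) = - B := by rw [hg1] at hN; linear_combination hN
  have e2 : g * (A - B) = A := by rw [hg1] at hN ⊢; linear_combination -hN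
  have b1 : n + l = j := by
    have := congrArg (v (W := W)) e1
    rw [map_mul, Valuation.map_neg, hf, hl, hj, ← exp_add, exp_inj] at this
    exact this
  have b2 : n' + l = i := by
    have := congrArg (v (W := W)) e2
    rw [map_mul, hg, hl, hi', ← exp_add, exp_inj] at this
    exact this
  refine ⟨i, j, l, hi', hj, hl, b1, b2, ?_⟩
  rcases lt_trichotomy n 0 with hn0 | hn0 | hn0
  · have h3 : v (W := W) f < 1 := by rw [hf, ← exp_zero, exp_lt_exp]; exact hn0
    have h4 : v (W := W) g = 1 := by rw [hg1]; exact Valuation.map_one_sub_of_lt _ h3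
    rw [hg, exp_eq_one] at h4
    right; right; left
    exact ⟨by omega, h4⟩
  · have h4 : v (W := W) g ≤ 1 := by
      rw [hg1]
      refine (Valuation.map_sub _ _ _).trans (max_le (by rw [map_one]) ?_)
      rw [hf, hn0, exp_zero]
    rw [hg, ← exp_zero, exp_le_exp] at h4
    rcases eq_or_lt_of_le h4 with h5 | h5
    · exact Or.inr (Or.inl ⟨hn0, h5⟩)
    · exact Or.inr (Or.inr (Or.inr ⟨hn0, by omega⟩))
  · have h3 : v (W := W) (1 : K W) < v (W := W) f := by
      rw [hf, map_one, ← exp_zero, exp_lt_exp]; exact hn0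
    have h4 : v (W := W) g = v (W := W) f := by rw [hg1]; exact Valuation.map_sub_eq_of_lt_right _ h3
    rw [hg, hf, exp_inj] at h4
    left
    exact ⟨h4.symm, by omega⟩

/-! ### leading coefficients -/

/-- a local parameter at the origin -/
noncomputable def pi0 : K W := xK / yK

lemma v_pi0 : v (W := W) pi0 = exp (-1) := by
  unfold pi0
  rw [map_div₀, v_x, v_y, ← exp_sub]
  rfl

lemma pi0_ne : (pi0 : K W) ≠ 0 := ne_of_v v_pi0

/-- `z` has a pole of order `n` with leading coefficient `a` at the origin -/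
def LC (z : K W) (n : ℤ) (a : k) : Prop := a ≠ 0 ∧ v (W := W) (z * pi0 ^ n - cK a) < 1

lemma v_c' {c : k} (hc : c ≠ 0) : v (W := W) (cK c) = 1 := by
  rw [v_c hc, exp_zero]

lemma LC.v_mul {z : K W} {n : ℤ} {a : k} (h : LC z n a) : v (W := W) (z * pi0 ^ n) = 1 := by
  have h1 : z * pi0 ^ n = (z * pi0 ^ n - cK a) + cK a := by ring
  rw [h1, Valuation.map_add_eq_of_lt_right, v_c' h.1]
  rw [v_c' h.1]; exact h.2

lemma LC.v_eq {z : K W} {n : ℤ} {a : k} (h : LC z n a) : v (W := W) z = exp n := by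
  have h1 := h.v_mul
  rw [map_mul, map_zpow₀, v_pi0, ← exp_zsmul] at h1
  have h2 : (exp n : WithZero (Multiplicative ℤ)) * exp (n • (-1)) = 1 := by
    rw [← exp_add, ← exp_zero]; congr 1; simp
  have h3 : (exp (n • (-1)) : WithZero (Multiplicative ℤ)) ≠ 0 := exp_ne_zero
  exact mul_right_cancel₀ h3 (h1.trans h2.symm)

lemma LC.ne {z : K W} {n : ℤ} {a : k} (h : LC z n a) : z ≠ 0 := ne_of_v h.v_eq

lemma LC.mul {z w : K W} {n m : ℤ} {a b : k} (h : LC z n a) (h' : LC w m b) :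
    LC (z * w) (n + m) (a * b) := by
  refine ⟨mul_ne_zero h.1 h'.1, ?_⟩
  have e : z * w * pi0 ^ (n + m) - cK (a * b) =
      (z * pi0 ^ n - cK a) * (w * pi0 ^ m) + cK a * (w * pi0 ^ m - cK b) := by
    rw [zpow_add₀ pi0_ne, map_mul]; ring
  rw [e]
  refine lt_of_le_of_lt (Valuation.map_add _ _ _) (max_lt ?_ ?_)
  · rw [map_mul, h'.v_mul, mul_one]; exact h.2
  · rw [map_mul, v_c' h.1, one_mul]; exact h'.2

lemma LC.inv {z : K W} {n : ℤ} {a : k} (h : LC z n a) : LC z⁻¹ (-n) a⁻¹ := by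
  refine ⟨inv_ne_zero h.1, ?_⟩
  have hz := h.ne
  have ha : (cK a : K W) ≠ 0 := (_root_.map_ne_zero _).mpr h.1
  have hp := zpow_ne_zero n (pi0_ne (W := W))
  have e : z⁻¹ * pi0 ^ (-n) - cK (a⁻¹) =
      - ((z * pi0 ^ n - cK a) * ((z * pi0 ^ n)⁻¹ * (cK a)⁻¹)) := by
    rw [zpow_neg, map_inv₀]; field_simp; ring
  rw [e, Valuation.map_neg, map_mul, map_mul, map_inv₀, map_inv₀, h.v_mul, v_c' h.1, inv_one,
    one_mul, mul_one]
  exact h.2

lemma LC_c {a : k} (ha : a ≠ 0) : LC (cK a : K W) 0 a := by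
  refine ⟨ha, ?_⟩
  rw [zpow_zero, mul_one, sub_self, map_zero]
  exact zero_lt_one

lemma LC_one : LC (1 : K W) 0 1 := by
  have := LC_c (W := W) (a := 1) one_ne_zero
  rwa [map_one] at this

lemma LC.div {z w : K W} {n m : ℤ} {a b : k} (h : LC z n a) (h' : LC w m b) :
    LC (z / w) (n - m) (a / b) := by
  rw [div_eq_mul_inv, div_eq_mul_inv, sub_eq_add_neg]; exact h.mul h'.inv

lemma LC.pow {z : K W} {n : ℤ} {a : k} (h : LC z n a) (m : ℕ) : LC (z ^ m) (m * n) (a ^ m) := by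
  induction m with
  | zero => simpa using LC_one
  | succ m ih =>
    have := ih.mul h
    rw [pow_succ, pow_succ]
    convert this using 1
    push_cast; ring

lemma LC.zpow {z : K W} {n : ℤ} {a : k} (h : LC z n a) (m : ℤ) : LC (z ^ m) (m * n) (a ^ m) := by
  obtain ⟨l, rfl | rfl⟩ := m.eq_nat_or_neg
  · rw [zpow_natCast, zpow_natCast]; exact h.pow l
  · rw [zpow_neg, zpow_neg, zpow_natCast, zpow_natCast, neg_mul]; exact (h.pow l).inv

lemma LC_prod {ι : Type*} (s : Finset ι) {z : ι → K W} {n : ι → ℤ} {a : ι → k}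
    (h : ∀ i ∈ s, LC (z i) (n i) (a i)) :
    LC (∏ i ∈ s, z i) (∑ i ∈ s, n i) (∏ i ∈ s, a i) := by
  classical
  induction s using Finset.induction_on with
  | empty => simpa using LC_one
  | insert i s hi ih =>
    rw [Finset.prod_insert hi, Finset.sum_insert hi, Finset.prod_insert hi]
    exact (h i (Finset.mem_insert_self _ _)).mul
      (ih fun j hj => h j (Finset.mem_insert_of_mem hj))

/-- uniqueness of the leading coefficient -/
lemma LC.unique {z w : K W} {a b : k} (h : LC z 0 a) (h' : LC w 0 b)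
    (hzw : v (W := W) (z - w) < 1) : a = b := by
  by_contra hab
  have h1 : v (W := W) (cK (a - b)) = 1 := v_c' (sub_ne_zero.mpr hab)
  have e : (cK (a - b) : K W) = (w * pi0 ^ (0 : ℤ) - cK b) - (z * pi0 ^ (0 : ℤ) - cK a) +
      (z - w) := by
    rw [map_sub, zpow_zero, mul_one, mul_one]; ring
  rw [e] at h1
  have h2 := lt_of_le_of_lt (Valuation.map_add v ((w * pi0 ^ (0 : ℤ) - cK b) -
    (z * pi0 ^ (0 : ℤ) - cK a)) (z - w)) (max_lt
      (lt_of_le_of_lt (Valuation.map_sub _ _ _) (max_lt h'.2 h.2)) hzw)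
  rw [h1] at h2
  exact lt_irrefl _ h2

/-- the equation of the curve in the function field -/
lemma eq3 : (xK : K W) ^ 3 - yK ^ 2 = cK W.a₁ * xK * yK + cK W.a₃ * yK - cK W.a₂ * xK ^ 2 -
    cK W.a₄ * xK - cK W.a₆ := by
  have h : (yK : K W) ^ 2 + cK W.a₁ * xK * yK + cK W.a₃ * yK =
      xK ^ 3 + cK W.a₂ * xK ^ 2 + cK W.a₄ * xK + cK W.a₆ := eqK (W := W)
  linear_combination -h

lemma v_cle (c : k) : v (W := W) (cK c) ≤ 1 := by
  rcases eq_or_ne c 0 with rfl | hc
  · rw [map_zero, map_zero]; exact zero_le_one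
  · rw [v_c' hc]

lemma v_eq3 : v (W := W) ((xK : K W) ^ 3 - yK ^ 2) ≤ exp 5 := by
  rw [eq3]
  have e5 : ∀ {i : ℤ}, i ≤ 5 → (exp i : WithZero (Multiplicative ℤ)) ≤ exp 5 :=
    fun hi => exp_le_exp.mpr hi
  refine (Valuation.map_sub _ _ _).trans (max_le ((Valuation.map_sub _ _ _).trans (max_le
    ((Valuation.map_sub _ _ _).trans (max_le ((Valuation.map_add _ _ _).trans
      (max_le ?_ ?_)) ?_)) ?_)) ?_)
  · rw [map_mul, map_mul, v_x, v_y, mul_assoc, ← exp_add]
    exact (mul_le_mul' (v_cle _) le_rfl).trans (by rw [one_mul]; exact e5 (by norm_num))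
  · rw [map_mul, v_y]
    exact (mul_le_mul' (v_cle _) le_rfl).trans (by rw [one_mul]; exact e5 (by norm_num))
  · rw [map_mul, map_pow, v_x, pow_two, ← exp_add]
    exact (mul_le_mul' (v_cle _) le_rfl).trans (by rw [one_mul]; exact e5 (by norm_num))
  · rw [map_mul, v_x]
    exact (mul_le_mul' (v_cle _) le_rfl).trans (by rw [one_mul]; exact e5 (by norm_num))
  · refine (v_cle _).trans ?_
    rw [← exp_zero]; exact e5 (by norm_num)

lemma LC_x : LC (xK : K W) 2 1 := by
  refine ⟨one_ne_zero, ?_⟩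
  have hy : (yK : K W) ≠ 0 := ne_of_v v_y
  have e : (xK : K W) * pi0 ^ (2 : ℤ) - cK 1 = (xK ^ 3 - yK ^ 2) / yK ^ 2 := by
    unfold pi0; rw [map_one, zpow_ofNat]; field_simp
  rw [e, map_div₀, map_pow, v_y]
  have h0 : (0 : WithZero (Multiplicative ℤ)) < exp 3 ^ 2 :=
    zero_lt_iff.mpr (pow_ne_zero 2 exp_ne_zero)
  rw [div_lt_one₀ h0]
  refine lt_of_le_of_lt v_eq3 ?_
  rw [pow_two, ← exp_add, exp_lt_exp]; norm_num

lemma LC_y : LC (yK : K W) 3 1 := by
  refine ⟨one_ne_zero, ?_⟩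
  have hy : (yK : K W) ≠ 0 := ne_of_v v_y
  have e : (yK : K W) * pi0 ^ (3 : ℤ) - cK 1 = (xK ^ 3 - yK ^ 2) / yK ^ 2 := by
    unfold pi0; rw [map_one, zpow_ofNat]; field_simp
  rw [e, map_div₀, map_pow, v_y]
  have h0 : (0 : WithZero (Multiplicative ℤ)) < exp 3 ^ 2 :=
    zero_lt_iff.mpr (pow_ne_zero 2 exp_ne_zero)
  rw [div_lt_one₀ h0]
  refine lt_of_le_of_lt v_eq3 ?_
  rw [pow_two, ← exp_add, exp_lt_exp]; norm_num

lemma LC.add_of_lt {z w : K W} {n : ℤ} {a : k} (h : LC z n a) (hw : v (W := W) w < exp n) :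
    LC (z + w) n a := by
  refine ⟨h.1, ?_⟩
  have e : (z + w) * pi0 ^ n - cK a = (z * pi0 ^ n - cK a) + w * pi0 ^ n := by ring
  rw [e]
  refine lt_of_le_of_lt (Valuation.map_add _ _ _) (max_lt h.2 ?_)
  rw [map_mul, map_zpow₀, v_pi0, ← exp_zsmul]
  have h2 : (exp n : WithZero (Multiplicative ℤ)) * exp (n • (-1)) = 1 := by
    rw [← exp_add, ← exp_zero]; congr 1; simp
  rw [← h2]
  exact (mul_lt_mul_iff_left₀ (by exact zero_lt_iff.mpr exp_ne_zero)).mpr hw

lemma LC_xc (c : k) : LC (xK - cK c : K W) 2 1 := by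
  rw [sub_eq_add_neg]
  refine LC_x.add_of_lt ?_
  rw [Valuation.map_neg]
  refine lt_of_le_of_lt (v_cle c) ?_
  rw [← exp_zero, exp_lt_exp]; norm_num

lemma LC_yx (a : k) : LC (yK - cK a * xK : K W) 3 1 := by
  rw [sub_eq_add_neg]
  refine LC_y.add_of_lt ?_
  rw [Valuation.map_neg, map_mul, v_x]
  refine lt_of_le_of_lt (mul_le_mul' (v_cle a) le_rfl) ?_
  rw [one_mul, exp_lt_exp]; norm_num

end Gen

/-! ### the vectors in `⟨1, x, y, x², xy, x³, x²y⟩` -/

section NV

variable {k : Type*} [Field k] {W : WeierstrassCurve.Affine k}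

/-- the element with the coefficients `n` -/
noncomputable def NV (n : Fin 7 → k) : K W := N7 (n 0) (n 1) (n 2) (n 3) (n 4) (n 5) (n 6)

lemma NV_add (n m : Fin 7 → k) : (NV (n + m) : K W) = NV n + NV m := by
  unfold NV N7; simp only [Pi.add_apply, map_add]; ring

lemma NV_smul (a : k) (n : Fin 7 → k) : (NV (a • n) : K W) = cK a * NV n := by
  unfold NV N7; simp only [Pi.smul_apply, smul_eq_mul, map_mul]; ring

lemma NV_zero : (NV (0 : Fin 7 → k) : K W) = 0 := by
  unfold NV N7; simp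

lemma NV_sub (n m : Fin 7 → k) : (NV (n - m) : K W) = NV n - NV m := by
  unfold NV; rw [N7_sub]; rfl

lemma NV_sum {ι : Type*} (s : Finset ι) (a : ι → k) (n : ι → Fin 7 → k) :
    (NV (∑ i ∈ s, a i • n i) : K W) = ∑ i ∈ s, cK (a i) * NV (n i) := by
  classical
  induction s using Finset.induction_on with
  | empty => simpa using NV_zero
  | insert i s hi ih => rw [Finset.sum_insert hi, Finset.sum_insert hi, NV_add, NV_smul, ih]

/-- the order at infinity of an element of this space -/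
lemma v_NV (n : Fin 7 → k) : n = 0 ∨ ∃ i : ℤ, v (W := W) (NV n) = exp i ∧ 0 ≤ i ∧ i ≤ 7 ∧
    (i = 7 ↔ n 6 ≠ 0) ∧ (i = 0 → ∀ j, j ≠ 0 → n j = 0) := by
  unfold NV
  by_cases h6 : n 6 = 0
  · rw [h6]
    by_cases h5 : n 5 = 0
    · rw [h5]
      by_cases h4 : n 4 = 0
      · rw [h4]
        by_cases h3 : n 3 = 0
        · rw [h3]
          by_cases h2 : n 2 = 0
          · rw [h2]
            by_cases h1 : n 1 = 0
            · rw [h1]
              by_cases h0 : n 0 = 0
              · left; funext j; fin_cases j <;> assumption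
              · right
                refine ⟨0, ?_, le_rfl, by norm_num, by simp, fun _ j hj => ?_⟩
                · unfold N7; simp only [map_zero, zero_mul, add_zero]; exact v_c h0
                · fin_cases j <;> first | exact absurd rfl hj | assumption
            · exact Or.inr ⟨2, v2 h1, by norm_num, by norm_num, by simp, by norm_num⟩
          · exact Or.inr ⟨3, v3 h2, by norm_num, by norm_num, by simp, by norm_num⟩
        · exact Or.inr ⟨4, v4 h3, by norm_num, by norm_num, by simp, by norm_num⟩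
      · exact Or.inr ⟨5, v5 h4, by norm_num, by norm_num, by simp, by norm_num⟩
    · exact Or.inr ⟨6, v6 h5, by norm_num, by norm_num, by simp, by norm_num⟩
  · exact Or.inr ⟨7, v7 h6, by norm_num, by norm_num, by simp [h6], by norm_num⟩

lemma NV_eq_zero {n : Fin 7 → k} (h : (NV n : K W) = 0) : n = 0 := by
  rcases v_NV (W := W) n with h1 | ⟨i, h1, -⟩
  · exact h1
  · exact absurd h (ne_of_v h1)

end NV

end Pool.Agent.K7
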