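import Pool.Agent.Lib_helper72.K7.B

/-!
# A point of order seven: the functions `x(z + iP)`, the seven points
-/

set_option autoImplicit false
set_option linter.unusedSectionVars false
set_option linter.unusedSimpArgs false

namespace Pool.Agent.K7

open Polynomial WeierstrassCurve.Affine WithZero TN

/-- the exponents of `X i` in the basis -/
def ex : Fin 7 → Fin 6 → ℤ :=
  ![![1, 0, 0, 0, 0, 0], ![-2, 0, 0, 1, 0, 0], ![1, -1, 0, -1, 1, 0], ![0, 1, -1, 0, -1, 1],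
    ![0, 0, 0, 0, 1, -1], ![0, -1, 1, 1, -1, 0], ![0, 1, 0, -1, 0, 0]]

/-- the leading coefficient of `X i` at the origin -/
def lam {k : Type*} [Field k] (t : k) : Fin 7 → k := ![1, bb t, bb t, cc t, cc t, bb t, - bb t]

/-- the order at the point `-sP` of `∏ X i ^ e i` -/
def OO (e : Fin 7 → ℤ) (s : Fin 7) : ℤ := e (s + 1) + e (s - 1) - 2 * e s

/-- the exponents in the basis -/
def NN (e : Fin 7 → ℤ) (j : Fin 6) : ℤ := ∑ i, e i * ex i j

lemma Dn_NN (e : Fin 7 → ℤ) (m : Fin 7) : Dn (NN e) m = OO e (-m) := by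
  have key : ∀ i m : Fin 7, ∑ j, ex i j * oU j m = (if i = -m + 1 then 1 else 0) +
      (if i = -m - 1 then 1 else 0) - 2 * (if i = -m then 1 else 0) := by decide
  unfold Dn NN OO
  have h1 : ∑ j, (∑ i, e i * ex i j) * oU j m = ∑ i, e i * ∑ j, ex i j * oU j m := by
    rw [show (∑ j, (∑ i, e i * ex i j) * oU j m) = ∑ j, ∑ i, e i * (ex i j * oU j m) from
      Finset.sum_congr rfl fun j _ => by
        rw [Finset.sum_mul]; exact Finset.sum_congr rfl fun i _ => by ring, Finset.sum_comm]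
    exact Finset.sum_congr rfl fun i _ => (Finset.mul_sum _ _ _).symm
  rw [h1]
  simp only [key, mul_sub, mul_add, Finset.sum_sub_distrib, Finset.sum_add_distrib]
  simp only [mul_ite, mul_one, mul_zero, Finset.sum_ite_eq', Finset.mem_univ, if_true]
  ring

section F

variable {k : Type*} [Field k] {F : Type*} [Field F] [Algebra k F] {t : k} {x y : F}

variable (t x y) in
/-- the basis -/
def uF : Fin 6 → F := ![x, x - algebraMap k F (bb t), x - algebraMap k F (cc t), y,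
  y - algebraMap k F (cc t) * x, y - algebraMap k F (t - 1) * x]

variable (t x y) in
/-- the functions `x(z + iP)` -/
def XF : Fin 7 → F := fun i => algebraMap k F (lam t i) * ∏ j, uF t x y j ^ ex i j

variable (t x y) in
/-- monomials -/
def mon (e : Fin 7 → ℤ) : F := ∏ i, XF t x y i ^ e i

lemma io_uK (h : Gen (bb t) (cc t) x y) (j : Fin 6) : TN.io h (uK t j) = uF t x y j := by
  fin_cases j <;> simp [uK, uF, io_x, io_y, io_c]

lemma uF_ne (h : Gen (bb t) (cc t) x y) (j : Fin 6) : uF t x y j ≠ 0 := by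
  rw [← io_uK h]; exact (_root_.map_ne_zero _).mpr (uK_ne t j)

lemma bb_ne (ht : t ≠ 0) (ht1 : t ≠ 1) : bb t ≠ 0 :=
  mul_ne_zero (pow_ne_zero 2 ht) (sub_ne_zero.mpr ht1)

lemma cc_ne (ht : t ≠ 0) (ht1 : t ≠ 1) : cc t ≠ 0 :=
  mul_ne_zero ht (sub_ne_zero.mpr ht1)

lemma lam_ne (ht : t ≠ 0) (ht1 : t ≠ 1) (i : Fin 7) : lam t i ≠ 0 := by
  have h1 := bb_ne ht ht1
  have h2 := cc_ne ht ht1
  fin_cases i <;> simp [lam, h1, h2]

lemma XF_ne (ht : t ≠ 0) (ht1 : t ≠ 1) (h : Gen (bb t) (cc t) x y) (i : Fin 7) :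
    XF t x y i ≠ 0 :=
  mul_ne_zero ((_root_.map_ne_zero _).mpr (lam_ne ht ht1 i))
    (Finset.prod_ne_zero_iff.mpr fun j _ => zpow_ne_zero _ (uF_ne h j))

lemma mon_eq (h : Gen (bb t) (cc t) x y) (e : Fin 7 → ℤ) :
    mon t x y e = algebraMap k F (∏ i, lam t i ^ e i) * TN.io h (mo t (NN e)) := by
  have e1 : TN.io h (mo t (NN e)) = ∏ j, uF t x y j ^ NN e j := by
    unfold mo; rw [map_prod]
    refine Finset.prod_congr rfl fun j _ => ?_
    rw [map_zpow₀, io_uK]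
  rw [e1, map_prod]
  unfold mon XF
  rw [show (∏ j, uF t x y j ^ NN e j) = ∏ i, (∏ j, uF t x y j ^ ex i j) ^ e i by
    rw [show (∏ i, (∏ j, uF t x y j ^ ex i j) ^ e i) =
      ∏ i, ∏ j, uF t x y j ^ (e i * ex i j) from Finset.prod_congr rfl fun i _ => by
        rw [← Finset.prod_zpow]
        refine Finset.prod_congr rfl fun j _ => ?_
        rw [← zpow_mul, mul_comm], Finset.prod_comm]
    refine Finset.prod_congr rfl fun j _ => ?_
    unfold NN
    have : ∀ (s : Finset (Fin 7)) (a : Fin 7 → ℤ), uF t x y j ^ (∑ i ∈ s, a i) =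
        ∏ i ∈ s, uF t x y j ^ a i := by
      intro s a
      induction s using Finset.induction_on with
      | empty => simp
      | insert i s hi ih => rw [Finset.sum_insert hi, Finset.prod_insert hi,
          zpow_add₀ (uF_ne h j), ih]
    exact this _ _]
  rw [← Finset.prod_mul_distrib]
  refine Finset.prod_congr rfl fun i _ => ?_
  rw [mul_zpow, map_zpow₀]

/-! ### translation -/

variable (t x y) in
/-- the first coordinate of `z + P` -/
def nx : F := algebraMap k F (bb t) * y / x ^ 2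

variable (t x y) in
/-- the second coordinate of `z + P` -/
def ny : F := algebraMap k F (bb t) ^ 2 * (x ^ 2 - y) / x ^ 3

lemma Gen.next' [CharZero k] (ht : t ≠ 0) (ht1 : t ≠ 1) (h : Gen (bb t) (cc t) x y) :
    Gen (bb t) (cc t) (nx t x y) (ny t x y) := TN.Gen.next (bb_ne ht ht1) h

/-- the basis at the next point -/
lemma uF_next (ht : t ≠ 0) (ht1 : t ≠ 1) (h : Gen (bb t) (cc t) x y) :
    let B := algebraMap k F (bb t)
    let C := algebraMap k F (cc t)
    let u := uF t x y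
    uF t (nx t x y) (ny t x y) 0 = B * u 3 / u 0 ^ 2 ∧
    uF t (nx t x y) (ny t x y) 1 = - (B * u 3 * u 4 / (u 1 * u 0 ^ 2)) ∧
    uF t (nx t x y) (ny t x y) 2 = - (C * u 4 * u 5 / (u 2 * u 0 ^ 2)) ∧
    uF t (nx t x y) (ny t x y) 3 = B ^ 2 * u 3 * u 4 / (u 1 * u 0 ^ 3) ∧
    uF t (nx t x y) (ny t x y) 4 = - (B * C * u 3 * u 4 * u 5 / (u 1 * u 2 * u 0 ^ 3)) ∧
    uF t (nx t x y) (ny t x y) 5 = - (B * algebraMap k F (t - 1) * u 4 ^ 2 * u 5 /
      (u 2 ^ 2 * u 0 ^ 3)) := by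
  intro B C u
  have hu := uF_ne h
  have hu0 : x ≠ 0 := hu 0
  have hu1 : x - B ≠ 0 := hu 1
  have hu2 : x - C ≠ 0 := hu 2
  have he : y ^ 2 + (1 - C) * x * y - B * y = x ^ 3 - B * x ^ 2 := h.eq
  set T := algebraMap k F t with hT
  have hB : B = T ^ 2 * (T - 1) := by
    show algebraMap k F (bb t) = _
    unfold bb; rw [map_mul, map_pow, map_sub, map_one]
  have hC : C = T * (T - 1) := by
    show algebraMap k F (cc t) = _
    unfold cc; rw [map_mul, map_sub, map_one]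
  have hT1 : algebraMap k F (t - 1) = T - 1 := by rw [map_sub, map_one]
  have u0 : u 0 = x := rfl
  have u1 : u 1 = x - B := rfl
  have u2 : u 2 = x - C := rfl
  have u3 : u 3 = y := rfl
  have u4 : u 4 = y - C * x := rfl
  have u5 : u 5 = y - algebraMap k F (t - 1) * x := rfl
  have I1 : x ^ 2 - y = y * (y - C * x) / (x - B) := by
    rw [eq_div_iff hu1]; linear_combination -he
  have I2 : x ^ 2 - T * y = (y - C * x) * (y - (T - 1) * x) / (x - C) := by
    rw [eq_div_iff hu2, hC]; rw [hB, hC] at he; linear_combination -he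
  have I3 : T * x ^ 2 - T * y - x * y = - (y * (y - C * x) * (y - (T - 1) * x) /
      ((x - B) * (x - C))) := by
    rw [eq_neg_iff_add_eq_zero, ← mul_left_inj' (mul_ne_zero hu1 hu2), zero_mul, add_mul,
      div_mul_cancel₀ _ (mul_ne_zero hu1 hu2), hC, hB]
    rw [hB, hC] at he
    linear_combination (T ^ 3 - T ^ 2 - T * x + y) * he
  have I4 : T ^ 2 * (x ^ 2 - y) - x * y = - ((y - C * x) ^ 2 * (y - (T - 1) * x) /
      (x - C) ^ 2) := by
    rw [eq_neg_iff_add_eq_zero, ← mul_left_inj' (pow_ne_zero 2 hu2), zero_mul, add_mul,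
      div_mul_cancel₀ _ (pow_ne_zero 2 hu2), hC]
    rw [hB, hC] at he
    linear_combination (T ^ 3 - T ^ 2 * x - T ^ 2 + y) * he
  rw [u0, u1, u2, u3, u4, u5, hT1]
  have n0 : uF t (nx t x y) (ny t x y) 0 = nx t x y := rfl
  have n1 : uF t (nx t x y) (ny t x y) 1 = nx t x y - B := rfl
  have n2 : uF t (nx t x y) (ny t x y) 2 = nx t x y - C := rfl
  have n3 : uF t (nx t x y) (ny t x y) 3 = ny t x y := rfl
  have n4 : uF t (nx t x y) (ny t x y) 4 = ny t x y - C * nx t x y := rfl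
  have n5 : uF t (nx t x y) (ny t x y) 5 = ny t x y - algebraMap k F (t - 1) * nx t x y := rfl
  have ex' : nx t x y = B * y / x ^ 2 := rfl
  have ey' : ny t x y = B ^ 2 * (x ^ 2 - y) / x ^ 3 := rfl
  rw [n0, n1, n2, n3, n4, n5, ex', ey', hT1]
  refine ⟨rfl, ?_, ?_, ?_, ?_, ?_⟩
  · have : B * y / x ^ 2 - B = - (B * (x ^ 2 - y) / x ^ 2) := by field_simp; ring
    rw [this, I1]; field_simp
  · have : B * y / x ^ 2 - C = - (C * (x ^ 2 - T * y) / x ^ 2) := by
      rw [hB, hC]; field_simp; ring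
    rw [this, I2]; field_simp
  · rw [I1]; field_simp
  · have : B ^ 2 * (x ^ 2 - y) / x ^ 3 - C * (B * y / x ^ 2) =
        B * C * (T * x ^ 2 - T * y - x * y) / x ^ 3 := by
      rw [hB, hC]; field_simp
    rw [this, I3]; field_simp
  · have : B ^ 2 * (x ^ 2 - y) / x ^ 3 - (T - 1) * (B * y / x ^ 2) =
        B * (T - 1) * (T ^ 2 * (x ^ 2 - y) - x * y) / x ^ 3 := by
      rw [hB]; field_simp
    rw [this, I4]; field_simp

lemma XF_next [CharZero k] (ht : t ≠ 0) (ht1 : t ≠ 1) (h : Gen (bb t) (cc t) x y) (i : Fin 7) :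
    XF t (nx t x y) (ny t x y) i = XF t x y (i + 1) := by
  obtain ⟨e0, e1, e2, e3, e4, e5⟩ := uF_next ht ht1 h
  have hb : algebraMap k F (bb t) ≠ 0 := (_root_.map_ne_zero _).mpr (bb_ne ht ht1)
  have hc : algebraMap k F (cc t) ≠ 0 := (_root_.map_ne_zero _).mpr (cc_ne ht ht1)
  have ht1' : algebraMap k F (t - 1) ≠ 0 :=
    (_root_.map_ne_zero _).mpr (sub_ne_zero.mpr ht1)
  have hbc : algebraMap k F (cc t) ^ 2 = algebraMap k F (bb t) * algebraMap k F (t - 1) := by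
    rw [← map_pow, ← map_mul]; congr 1; unfold bb cc; ring
  have h0 := uF_ne h 0
  have h1 := uF_ne h 1
  have h2 := uF_ne h 2
  have h3 := uF_ne h 3
  have h4 := uF_ne h 4
  have h5 := uF_ne h 5
  fin_cases i
  · show algebraMap k F (lam t 0) * ∏ j, uF t (nx t x y) (ny t x y) j ^ ex 0 j =
      algebraMap k F (lam t 1) * ∏ j, uF t x y j ^ ex 1 j
    simp [Fin.prod_univ_six, ex, lam, zpow_neg, zpow_ofNat]
    rw [e0]; field_simp
  · show algebraMap k F (lam t 1) * ∏ j, uF t (nx t x y) (ny t x y) j ^ ex 1 j =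
      algebraMap k F (lam t 2) * ∏ j, uF t x y j ^ ex 2 j
    simp [Fin.prod_univ_six, ex, lam, zpow_neg, zpow_ofNat]
    left; rw [e0, e3]; field_simp
  · show algebraMap k F (lam t 2) * ∏ j, uF t (nx t x y) (ny t x y) j ^ ex 2 j =
      algebraMap k F (lam t 3) * ∏ j, uF t x y j ^ ex 3 j
    simp [Fin.prod_univ_six, ex, lam, zpow_neg, zpow_ofNat]
    rw [e0, e1, e3, e4]; field_simp
  · show algebraMap k F (lam t 3) * ∏ j, uF t (nx t x y) (ny t x y) j ^ ex 3 j =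
      algebraMap k F (lam t 4) * ∏ j, uF t x y j ^ ex 4 j
    simp [Fin.prod_univ_six, ex, lam, zpow_neg, zpow_ofNat]
    left; rw [e1, e2, e4, e5]; field_simp; rw [hbc]
  · show algebraMap k F (lam t 4) * ∏ j, uF t (nx t x y) (ny t x y) j ^ ex 4 j =
      algebraMap k F (lam t 5) * ∏ j, uF t x y j ^ ex 5 j
    simp [Fin.prod_univ_six, ex, lam, zpow_neg, zpow_ofNat]
    rw [e4, e5]; field_simp; rw [hbc]
  · show algebraMap k F (lam t 5) * ∏ j, uF t (nx t x y) (ny t x y) j ^ ex 5 j =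
      algebraMap k F (lam t 6) * ∏ j, uF t x y j ^ ex 6 j
    simp [Fin.prod_univ_six, ex, lam, zpow_neg, zpow_ofNat]
    rw [e1, e2, e3, e4]; field_simp
  · show algebraMap k F (lam t 6) * ∏ j, uF t (nx t x y) (ny t x y) j ^ ex 6 j =
      algebraMap k F (lam t 0) * ∏ j, uF t x y j ^ ex 0 j
    simp [Fin.prod_univ_six, ex, lam, zpow_neg, zpow_ofNat]
    rw [e1, e3]; field_simp

/-- generic points after `s` translations -/
lemma exists_shift [CharZero k] (ht : t ≠ 0) (ht1 : t ≠ 1) (h : Gen (bb t) (cc t) x y) (s : Fin 7) :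
    ∃ x' y' : F, Gen (bb t) (cc t) x' y' ∧ ∀ i, XF t x' y' i = XF t x y (i + s) := by
  have key : ∀ n : ℕ, ∃ x' y' : F, Gen (bb t) (cc t) x' y' ∧
      ∀ i, XF t x' y' i = XF t x y (i + n • 1) := by
    intro n
    induction n with
    | zero => exact ⟨x, y, h, fun i => by simp⟩
    | succ n ih =>
      obtain ⟨x', y', h', hi⟩ := ih
      refine ⟨nx t x' y', ny t x' y', Gen.next' ht ht1 h', fun i => ?_⟩
      rw [XF_next ht ht1 h', hi]
      congr 1
      rw [succ_nsmul]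
      abel
  obtain ⟨x', y', h', hi⟩ := key s.val
  refine ⟨x', y', h', fun i => ?_⟩
  have h7 : ∀ s : Fin 7, s.val • (1 : Fin 7) = s := by decide
  rw [hi, h7]

lemma mon_shift {x' y' : F} (s : Fin 7) (hs : ∀ i, XF t x' y' i = XF t x y (i + s))
    (e : Fin 7 → ℤ) : mon t x y e = mon t x' y' (fun i => e (i + s)) := by
  unfold mon
  rw [← Equiv.prod_comp (Equiv.addRight s) (fun i => XF t x y i ^ e i)]
  refine Finset.prod_congr rfl fun i _ => ?_
  rw [hs]; rfl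

/-- the leading coefficient of `c ∏ X i ^ e i` at `-sP` -/
def Lc (t : k) (c : k) (e : Fin 7 → ℤ) (s : Fin 7) : k := c * ∏ i, lam t i ^ e (i + s)

/-- the alternatives at a point -/
def Alt7 (t : k) (c₀ c₁ : k) (e e' : Fin 7 → ℤ) (s : Fin 7) : Prop :=
  (OO e s = 0 ∧ OO e' s = 0) ∨
  (1 ≤ OO e s ∧ OO e' s = 0 ∧ Lc t c₁ e' s = 1 ∧
    (OO e s ≤ 6 ∨ (OO e s = 7 ∧ ∀ i, i ≠ s → OO e' i ≠ 0))) ∨
  (OO e s = 0 ∧ 1 ≤ OO e' s ∧ Lc t c₀ e s = 1 ∧
    (OO e' s ≤ 6 ∨ (OO e' s = 7 ∧ ∀ i, i ≠ s → OO e i ≠ 0))) ∨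
  (OO e s = OO e' s ∧ OO e s ≤ -1 ∧ Lc t c₀ e s = - Lc t c₁ e' s ∧
    (-6 ≤ OO e s ∨ (OO e s = -7 ∧ ∀ i, i ≠ s → OO e i ≠ OO e' i)))

/-- **the bound at all points** -/
theorem bound7 [CharZero k] (ht : t ≠ 0) (ht1 : t ≠ 1) (h : Gen (bb t) (cc t) x y) {c₀ c₁ : k}
    (h0 : c₀ ≠ 0) (h1 : c₁ ≠ 0) {e e' : Fin 7 → ℤ}
    (hu : algebraMap k F c₀ * mon t x y e + algebraMap k F c₁ * mon t x y e' = 1) (s : Fin 7) :
    Alt7 t c₀ c₁ e e' s := by
  obtain ⟨x', y', h', hs⟩ := exists_shift ht ht1 h s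
  rw [mon_shift s hs e, mon_shift s hs e', mon_eq h', mon_eq h', ← mul_assoc, ← mul_assoc,
    ← map_mul, ← map_mul, ← io_c h', ← io_c h', ← map_mul, ← map_mul, ← map_add] at hu
  have hu2 := io_inj h' (hu.trans (map_one _).symm)
  have n0 : Lc t c₀ e s ≠ 0 := mul_ne_zero h0
    (Finset.prod_ne_zero_iff.mpr fun i _ => zpow_ne_zero _ (lam_ne ht ht1 i))
  have n1 : Lc t c₁ e' s ≠ 0 := mul_ne_zero h1
    (Finset.prod_ne_zero_iff.mpr fun i _ => zpow_ne_zero _ (lam_ne ht ht1 i))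
  have key := bound_K t ht ht1 (c₀ := Lc t c₀ e s) (c₁ := Lc t c₁ e' s) n0 n1 hu2
  have sh : ∀ (e : Fin 7 → ℤ) (m : Fin 7), Dn (NN fun i => e (i + s)) m = OO e (s - m) := by
    intro e m
    rw [Dn_NN]
    show e (-m + 1 + s) + e (-m - 1 + s) - 2 * e (-m + s) =
      e (s - m + 1) + e (s - m - 1) - 2 * e (s - m)
    rw [show -m + 1 + s = s - m + 1 by abel, show -m - 1 + s = s - m - 1 by abel,
      show -m + s = s - m by abel]
  simp only [sh, sub_zero] at key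
  have tr : ∀ {p : Fin 7 → Prop}, (∀ i, i ≠ 0 → p (s - i)) → ∀ i, i ≠ s → p i := by
    intro p hp i hi
    have := hp (s - i) (by intro h'; apply hi; exact (sub_eq_zero.mp h').symm)
    rwa [sub_sub_cancel] at this
  rcases key with k1 | ⟨k1, k2, k3, k4⟩ | ⟨k1, k2, k3, k4⟩ | ⟨k1, k2, k3, k4⟩
  · exact Or.inl k1
  · refine Or.inr (Or.inl ⟨k1, k2, k3, ?_⟩)
    rcases k4 with k4 | ⟨k4, k5⟩
    · exact Or.inl k4
    · exact Or.inr ⟨k4, tr (p := fun i => OO e' i ≠ 0) k5⟩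
  · refine Or.inr (Or.inr (Or.inl ⟨k1, k2, k3, ?_⟩))
    rcases k4 with k4 | ⟨k4, k5⟩
    · exact Or.inl k4
    · exact Or.inr ⟨k4, tr (p := fun i => OO e i ≠ 0) k5⟩
  · refine Or.inr (Or.inr (Or.inr ⟨k1, k2, k3, ?_⟩))
    rcases k4 with k4 | ⟨k4, k5⟩
    · exact Or.inl k4
    · exact Or.inr ⟨k4, tr (p := fun i => OO e i ≠ OO e' i) k5⟩

end F

end Pool.Agent.K7
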