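import Pool.Agent.Lib_helper72.K7.C

/-!
# A point of order seven: the divisors of the solutions of the unit equation
-/

set_option autoImplicit false
set_option linter.unusedSectionVars false
set_option linter.unusedSimpArgs false

namespace Pool.Agent.K7

open Polynomial WeierstrassCurve.Affine WithZero TN

/-! ### values -/

/-- the exponent of `b` in the leading coefficient -/
def S1 (e : Fin 7 → ℤ) (s : Fin 7) : ℤ := e (1 + s) + e (2 + s) + e (5 + s) + e (6 + s)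

/-- the exponent of `c` in the leading coefficient -/
def S2 (e : Fin 7 → ℤ) (s : Fin 7) : ℤ := e (3 + s) + e (4 + s)

section Val

variable {k : Type*} [Field k] {t : k}

lemma prod_lam (ht : t ≠ 0) (ht1 : t ≠ 1) (e : Fin 7 → ℤ) (s : Fin 7) :
    (∏ i, lam t i ^ e (i + s)) ^ 2 =
      t ^ (2 * (2 * S1 e s + S2 e s)) * (t - 1) ^ (2 * (S1 e s + S2 e s)) := by
  have h1 : t - 1 ≠ 0 := sub_ne_zero.mpr ht1
  have hb := bb_ne ht ht1
  have hc := cc_ne ht ht1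
  have e1 : ∏ i, lam t i ^ e (i + s) = lam t 0 ^ e (0 + s) * lam t 1 ^ e (1 + s) *
      lam t 2 ^ e (2 + s) * lam t 3 ^ e (3 + s) * lam t 4 ^ e (4 + s) * lam t 5 ^ e (5 + s) *
      lam t 6 ^ e (6 + s) := by
    rw [Fin.prod_univ_seven]
  rw [e1]
  have l0 : lam t 0 = 1 := rfl
  have l1 : lam t 1 = bb t := rfl
  have l2 : lam t 2 = bb t := rfl
  have l3 : lam t 3 = cc t := rfl
  have l4 : lam t 4 = cc t := rfl
  have l5 : lam t 5 = bb t := rfl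
  have l6 : lam t 6 = (-1) * bb t := by show - bb t = _; ring
  rw [l0, l1, l2, l3, l4, l5, l6, one_zpow, one_mul, mul_zpow]
  have h2 : ((-1 : k) ^ e (6 + s)) ^ 2 = 1 := by
    rw [← zpow_natCast, ← zpow_mul, mul_comm, zpow_mul]; norm_num
  have e2 : (bb t ^ e (1 + s) * bb t ^ e (2 + s) * cc t ^ e (3 + s) * cc t ^ e (4 + s) *
      bb t ^ e (5 + s) * ((-1) ^ e (6 + s) * bb t ^ e (6 + s))) =
      (-1) ^ e (6 + s) * (bb t ^ S1 e s * cc t ^ S2 e s) := by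
    unfold S1 S2
    rw [zpow_add₀ hb, zpow_add₀ hb, zpow_add₀ hb, zpow_add₀ hc]; ring
  rw [e2, mul_pow, h2, one_mul]
  unfold bb cc
  rw [mul_zpow, mul_zpow, ← zpow_natCast, ← zpow_natCast, ← zpow_mul]
  rw [show (t ^ (((2 : ℕ) : ℤ) * S1 e s) * (t - 1) ^ S1 e s * (t ^ S2 e s * (t - 1) ^ S2 e s)) =
    t ^ (2 * S1 e s + S2 e s) * (t - 1) ^ (S1 e s + S2 e s) by
      rw [zpow_add₀ ht, zpow_add₀ h1]; push_cast; ring]
  rw [mul_zpow, ← zpow_mul, ← zpow_mul]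
  congr 2 <;> push_cast <;> ring

/-- equal leading coefficients at two points -/
lemma rel (ht : t ≠ 0) (ht1 : t ≠ 1)
    (hind : ∀ m n : ℤ, t ^ m * (t - 1) ^ n = 1 → m = 0 ∧ n = 0) {e : Fin 7 → ℤ} {s s' : Fin 7}
    (h : (∏ i, lam t i ^ e (i + s)) = ∏ i, lam t i ^ e (i + s')) :
    S1 e s = S1 e s' ∧ S2 e s = S2 e s' := by
  have h1 : t - 1 ≠ 0 := sub_ne_zero.mpr ht1
  have h2 := congrArg (fun z => z ^ 2) h
  simp only [prod_lam ht ht1] at h2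
  have h3 : t ^ (2 * (2 * S1 e s + S2 e s) - 2 * (2 * S1 e s' + S2 e s')) *
      (t - 1) ^ (2 * (S1 e s + S2 e s) - 2 * (S1 e s' + S2 e s')) = 1 := by
    rw [zpow_sub₀ ht, zpow_sub₀ h1]
    field_simp
    exact h2
  have h4 := hind _ _ h3
  omega

end Val

/-! ### symmetry -/

lemma sym_1 (e : Fin 7 → ℤ) (h0 : OO e 0 = 0) (h1 : OO e 1 = 0)
    (h2 : S1 e 0 = S1 e 1) (h3 : S2 e 0 = S2 e 1) : ∀ c, OO e c = OO e (1 - c) := by
  have a0 : e 1 + e 6 - 2 * e 0 = 0 := h0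
  have a1 : e 2 + e 0 - 2 * e 1 = 0 := h1
  have a2 : e 1 + e 2 + e 5 + e 6 = e 2 + e 3 + e 6 + e 0 := h2
  have a3 : e 3 + e 4 = e 4 + e 5 := h3
  intro c; fin_cases c
  · show e 1 + e 6 - 2 * e 0 = e 2 + e 0 - 2 * e 1; omega
  · show e 2 + e 0 - 2 * e 1 = e 1 + e 6 - 2 * e 0; omega
  · show e 3 + e 1 - 2 * e 2 = e 0 + e 5 - 2 * e 6; omega
  · show e 4 + e 2 - 2 * e 3 = e 6 + e 4 - 2 * e 5; omega
  · show e 5 + e 3 - 2 * e 4 = e 5 + e 3 - 2 * e 4; omega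
  · show e 6 + e 4 - 2 * e 5 = e 4 + e 2 - 2 * e 3; omega
  · show e 0 + e 5 - 2 * e 6 = e 3 + e 1 - 2 * e 2; omega

lemma sym_2 (e : Fin 7 → ℤ) (h0 : OO e 0 = 0) (h1 : OO e 2 = 0)
    (h2 : S1 e 0 = S1 e 2) (h3 : S2 e 0 = S2 e 2) : ∀ c, OO e c = OO e (2 - c) := by
  have a0 : e 1 + e 6 - 2 * e 0 = 0 := h0
  have a1 : e 3 + e 1 - 2 * e 2 = 0 := h1
  have a2 : e 1 + e 2 + e 5 + e 6 = e 3 + e 4 + e 0 + e 1 := h2
  have a3 : e 3 + e 4 = e 5 + e 6 := h3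
  intro c; fin_cases c
  · show e 1 + e 6 - 2 * e 0 = e 3 + e 1 - 2 * e 2; omega
  · show e 2 + e 0 - 2 * e 1 = e 2 + e 0 - 2 * e 1; omega
  · show e 3 + e 1 - 2 * e 2 = e 1 + e 6 - 2 * e 0; omega
  · show e 4 + e 2 - 2 * e 3 = e 0 + e 5 - 2 * e 6; omega
  · show e 5 + e 3 - 2 * e 4 = e 6 + e 4 - 2 * e 5; omega
  · show e 6 + e 4 - 2 * e 5 = e 5 + e 3 - 2 * e 4; omega
  · show e 0 + e 5 - 2 * e 6 = e 4 + e 2 - 2 * e 3; omega

lemma sym_3 (e : Fin 7 → ℤ) (h0 : OO e 0 = 0) (h1 : OO e 3 = 0)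
    (h2 : S1 e 0 = S1 e 3) (h3 : S2 e 0 = S2 e 3) : ∀ c, OO e c = OO e (3 - c) := by
  have a0 : e 1 + e 6 - 2 * e 0 = 0 := h0
  have a1 : e 4 + e 2 - 2 * e 3 = 0 := h1
  have a2 : e 1 + e 2 + e 5 + e 6 = e 4 + e 5 + e 1 + e 2 := h2
  have a3 : e 3 + e 4 = e 6 + e 0 := h3
  intro c; fin_cases c
  · show e 1 + e 6 - 2 * e 0 = e 4 + e 2 - 2 * e 3; omega
  · show e 2 + e 0 - 2 * e 1 = e 3 + e 1 - 2 * e 2; omega
  · show e 3 + e 1 - 2 * e 2 = e 2 + e 0 - 2 * e 1; omega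
  · show e 4 + e 2 - 2 * e 3 = e 1 + e 6 - 2 * e 0; omega
  · show e 5 + e 3 - 2 * e 4 = e 0 + e 5 - 2 * e 6; omega
  · show e 6 + e 4 - 2 * e 5 = e 6 + e 4 - 2 * e 5; omega
  · show e 0 + e 5 - 2 * e 6 = e 5 + e 3 - 2 * e 4; omega

lemma sym_4 (e : Fin 7 → ℤ) (h0 : OO e 0 = 0) (h1 : OO e 4 = 0)
    (h2 : S1 e 0 = S1 e 4) (h3 : S2 e 0 = S2 e 4) : ∀ c, OO e c = OO e (4 - c) := by
  have a0 : e 1 + e 6 - 2 * e 0 = 0 := h0
  have a1 : e 5 + e 3 - 2 * e 4 = 0 := h1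
  have a2 : e 1 + e 2 + e 5 + e 6 = e 5 + e 6 + e 2 + e 3 := h2
  have a3 : e 3 + e 4 = e 0 + e 1 := h3
  intro c; fin_cases c
  · show e 1 + e 6 - 2 * e 0 = e 5 + e 3 - 2 * e 4; omega
  · show e 2 + e 0 - 2 * e 1 = e 4 + e 2 - 2 * e 3; omega
  · show e 3 + e 1 - 2 * e 2 = e 3 + e 1 - 2 * e 2; omega
  · show e 4 + e 2 - 2 * e 3 = e 2 + e 0 - 2 * e 1; omega
  · show e 5 + e 3 - 2 * e 4 = e 1 + e 6 - 2 * e 0; omega
  · show e 6 + e 4 - 2 * e 5 = e 0 + e 5 - 2 * e 6; omega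
  · show e 0 + e 5 - 2 * e 6 = e 6 + e 4 - 2 * e 5; omega

lemma sym_5 (e : Fin 7 → ℤ) (h0 : OO e 0 = 0) (h1 : OO e 5 = 0)
    (h2 : S1 e 0 = S1 e 5) (h3 : S2 e 0 = S2 e 5) : ∀ c, OO e c = OO e (5 - c) := by
  have a0 : e 1 + e 6 - 2 * e 0 = 0 := h0
  have a1 : e 6 + e 4 - 2 * e 5 = 0 := h1
  have a2 : e 1 + e 2 + e 5 + e 6 = e 6 + e 0 + e 3 + e 4 := h2
  have a3 : e 3 + e 4 = e 1 + e 2 := h3
  intro c; fin_cases c
  · show e 1 + e 6 - 2 * e 0 = e 6 + e 4 - 2 * e 5; omega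
  · show e 2 + e 0 - 2 * e 1 = e 5 + e 3 - 2 * e 4; omega
  · show e 3 + e 1 - 2 * e 2 = e 4 + e 2 - 2 * e 3; omega
  · show e 4 + e 2 - 2 * e 3 = e 3 + e 1 - 2 * e 2; omega
  · show e 5 + e 3 - 2 * e 4 = e 2 + e 0 - 2 * e 1; omega
  · show e 6 + e 4 - 2 * e 5 = e 1 + e 6 - 2 * e 0; omega
  · show e 0 + e 5 - 2 * e 6 = e 0 + e 5 - 2 * e 6; omega

lemma sym_6 (e : Fin 7 → ℤ) (h0 : OO e 0 = 0) (h1 : OO e 6 = 0)
    (h2 : S1 e 0 = S1 e 6) (h3 : S2 e 0 = S2 e 6) : ∀ c, OO e c = OO e (6 - c) := by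
  have a0 : e 1 + e 6 - 2 * e 0 = 0 := h0
  have a1 : e 0 + e 5 - 2 * e 6 = 0 := h1
  have a2 : e 1 + e 2 + e 5 + e 6 = e 0 + e 1 + e 4 + e 5 := h2
  have a3 : e 3 + e 4 = e 2 + e 3 := h3
  intro c; fin_cases c
  · show e 1 + e 6 - 2 * e 0 = e 0 + e 5 - 2 * e 6; omega
  · show e 2 + e 0 - 2 * e 1 = e 6 + e 4 - 2 * e 5; omega
  · show e 3 + e 1 - 2 * e 2 = e 5 + e 3 - 2 * e 4; omega
  · show e 4 + e 2 - 2 * e 3 = e 4 + e 2 - 2 * e 3; omega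
  · show e 5 + e 3 - 2 * e 4 = e 3 + e 1 - 2 * e 2; omega
  · show e 6 + e 4 - 2 * e 5 = e 2 + e 0 - 2 * e 1; omega
  · show e 0 + e 5 - 2 * e 6 = e 1 + e 6 - 2 * e 0; omega
lemma sym0 (e : Fin 7 → ℤ) (d : Fin 7) (hd : d ≠ 0) (h0 : OO e 0 = 0) (h1 : OO e d = 0)
    (h2 : S1 e 0 = S1 e d) (h3 : S2 e 0 = S2 e d) : ∀ c, OO e c = OO e (d - c) := by
  fin_cases d
  · exact absurd rfl hd
  · exact sym_1 e h0 h1 h2 h3
  · exact sym_2 e h0 h1 h2 h3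
  · exact sym_3 e h0 h1 h2 h3
  · exact sym_4 e h0 h1 h2 h3
  · exact sym_5 e h0 h1 h2 h3
  · exact sym_6 e h0 h1 h2 h3

lemma OO_shift (e : Fin 7 → ℤ) (h s : Fin 7) : OO (fun i => e (i + h)) s = OO e (s + h) := by
  show e (s + 1 + h) + e (s - 1 + h) - 2 * e (s + h) = e (s + h + 1) + e (s + h - 1) - 2 * e (s + h)
  rw [show s + 1 + h = s + h + 1 by abel, show s - 1 + h = s + h - 1 by abel]

lemma S1_shift (e : Fin 7 → ℤ) (h s : Fin 7) : S1 (fun i => e (i + h)) s = S1 e (s + h) := by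
  show e (1 + s + h) + e (2 + s + h) + e (5 + s + h) + e (6 + s + h) = _
  unfold S1
  simp only [add_assoc]

lemma S2_shift (e : Fin 7 → ℤ) (h s : Fin 7) : S2 (fun i => e (i + h)) s = S2 e (s + h) := by
  show e (3 + s + h) + e (4 + s + h) = _
  unfold S2
  simp only [add_assoc]

/-- **two points in one fibre**: the divisor is symmetric -/
theorem sym (e : Fin 7 → ℤ) {s s' : Fin 7} (hs : s ≠ s') (h0 : OO e s = 0) (h1 : OO e s' = 0)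
    (h2 : S1 e s = S1 e s' ∧ S2 e s = S2 e s') (c : Fin 7) : OO e c = OO e (s + s' - c) := by
  have key := sym0 (fun i => e (i + s)) (s' - s) (sub_ne_zero.mpr hs.symm)
    (by rw [OO_shift, zero_add]; exact h0) (by rw [OO_shift, sub_add_cancel]; exact h1)
    (by rw [S1_shift, S1_shift, zero_add, sub_add_cancel]; exact h2.1)
    (by rw [S2_shift, S2_shift, zero_add, sub_add_cancel]; exact h2.2) (c - s)
  rw [OO_shift, OO_shift, sub_add_cancel] at key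
  rw [key]
  congr 1
  abel

lemma sum_OO (e : Fin 7 → ℤ) : ∑ s, OO e s = 0 := by
  rw [Fin.sum_univ_seven]
  show (e 1 + e 6 - 2 * e 0) + (e 2 + e 0 - 2 * e 1) + (e 3 + e 1 - 2 * e 2) +
    (e 4 + e 2 - 2 * e 3) + (e 5 + e 3 - 2 * e 4) + (e 6 + e 4 - 2 * e 5) +
    (e 0 + e 5 - 2 * e 6) = 0
  ring

lemma wt_OO (e : Fin 7 → ℤ) : ∑ s : Fin 7, (s.val : ℤ) * OO e s = 7 * (e 0 - e 6) := by
  rw [Fin.sum_univ_seven]
  show (0 : ℤ) * (e 1 + e 6 - 2 * e 0) + 1 * (e 2 + e 0 - 2 * e 1) + 2 * (e 3 + e 1 - 2 * e 2) +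
    3 * (e 4 + e 2 - 2 * e 3) + 4 * (e 5 + e 3 - 2 * e 4) + 5 * (e 6 + e 4 - 2 * e 5) +
    6 * (e 0 + e 5 - 2 * e 6) = 7 * (e 0 - e 6)
  ring

/-! ### two fibres -/

lemma stab_all (B : Fin 7 → Prop) {a a' : Fin 7} (haa : a ≠ a') (h : ∀ x, B x → B (a - x))
    (h' : ∀ x, B x → B (a' - x)) (hB : ∃ x, B x) : ∀ y, B y := by
  obtain ⟨x, hx⟩ := hB
  have step : ∀ x, B x → B (x + (a' - a)) := by
    intro x hx
    have := h' _ (h x hx)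
    rwa [show a' - (a - x) = x + (a' - a) by abel] at this
  have it : ∀ n : ℕ, B (x + n • (a' - a)) := by
    intro n
    induction n with
    | zero => simpa using hx
    | succ n ih =>
      have := step _ ih
      rwa [add_assoc, ← succ_nsmul] at this
  intro y
  have hd : ∀ d z : Fin 7, d ≠ 0 → ∃ n : Fin 7, n.val • d = z := by decide
  obtain ⟨n, hn⟩ := hd (a' - a) (y - x) (sub_ne_zero.mpr haa.symm)
  have := it n.val
  rwa [hn, add_sub_cancel] at this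

lemma two_pts (A B : Fin 7 → Prop) (hAB : ∀ s, ¬ (A s ∧ B s)) (hA : ∃ s, A s) (hB : ∃ s, B s)
    (h1 : ∀ s s', s ≠ s' → A s → A s' → ∀ x, B x → B (s + s' - x)) :
    ∃ a a', ∀ x, A x ↔ x = a ∨ x = a' := by
  classical
  obtain ⟨s, hs⟩ := hA
  by_cases hh : ∃ s', s ≠ s' ∧ A s'
  · obtain ⟨s', hne, hs'⟩ := hh
    refine ⟨s, s', fun x => ⟨fun hx => ?_, ?_⟩⟩
    · by_cases hxs : s = x
      · exact Or.inl hxs.symm
      · right
        by_contra hx'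
        have := stab_all B (a := s + x) (a' := s + s') (fun hc => hx' (add_left_cancel hc))
          (h1 s x hxs hs hx) (h1 s s' hne hs hs') hB s
        exact hAB s ⟨hs, this⟩
    · rintro (rfl | rfl)
      · exact hs
      · exact hs'
  · push Not at hh
    refine ⟨s, s, fun x => ⟨fun hx => ?_, ?_⟩⟩
    · by_contra hx'
      push Not at hx'
      exact hh x hx'.1.symm hx
    · rintro (rfl | rfl) <;> exact hs

lemma sum_eq (A B : Fin 7 → Prop) {a a' b b' : Fin 7} (hne : a ≠ a')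
    (hA : ∀ x, A x ↔ x = a ∨ x = a') (hB : ∀ x, B x ↔ x = b ∨ x = b')
    (h1 : ∀ s s', s ≠ s' → A s → A s' → ∀ x, B x → B (s + s' - x)) : b + b' = a + a' := by
  have q := h1 a a' hne ((hA _).mpr (Or.inl rfl)) ((hA _).mpr (Or.inr rfl))
  have p1 := (hB _).mp (q b ((hB _).mpr (Or.inl rfl)))
  have p2 := (hB _).mp (q b' ((hB _).mpr (Or.inr rfl)))
  have key : ∀ S b b' : Fin 7, (S - b = b ∨ S - b = b') → (S - b' = b ∨ S - b' = b') →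
    b + b' = S := by decide
  exact key _ _ _ p1 p2

/-- `r` as a residue -/
def r7 (r : Fin 4) : Fin 7 := Fin.castLE (by norm_num) r

/-- three fibres: three points, or three orbits of one involution -/
theorem fibres (A B C : Fin 7 → Prop) (hAB : ∀ s, ¬ (A s ∧ B s)) (hAC : ∀ s, ¬ (A s ∧ C s))
    (hBC : ∀ s, ¬ (B s ∧ C s)) (hA : ∃ s, A s) (hB : ∃ s, B s) (hC : ∃ s, C s)
    (h1 : ∀ s s', s ≠ s' → A s → A s' → ∀ x, B x → B (s + s' - x))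
    (h2 : ∀ s s', s ≠ s' → A s → A s' → ∀ x, C x → C (s + s' - x))
    (h3 : ∀ s s', s ≠ s' → B s → B s' → ∀ x, A x → A (s + s' - x))
    (h4 : ∀ s s', s ≠ s' → B s → B s' → ∀ x, C x → C (s + s' - x))
    (h5 : ∀ s s', s ≠ s' → C s → C s' → ∀ x, A x → A (s + s' - x))
    (h6 : ∀ s s', s ≠ s' → C s → C s' → ∀ x, B x → B (s + s' - x)) :
    (∃ a b c, (∀ x, A x ↔ x = a) ∧ (∀ x, B x ↔ x = b) ∧ (∀ x, C x ↔ x = c)) ∨
    ∃ h : Fin 7, ∃ p q r : Fin 4, p ≠ q ∧ p ≠ r ∧ q ≠ r ∧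
      (∀ x, A x ↔ x = h + r7 p ∨ x = h - r7 p) ∧ (∀ x, B x ↔ x = h + r7 q ∨ x = h - r7 q) ∧
      (∀ x, C x ↔ x = h + r7 r ∨ x = h - r7 r) := by
  obtain ⟨a, a', ha⟩ := two_pts A B hAB hA hB h1
  obtain ⟨b, b', hb⟩ := two_pts B A (fun s h => hAB s ⟨h.2, h.1⟩) hB hA h3
  obtain ⟨c, c', hc⟩ := two_pts C A (fun s h => hAC s ⟨h.2, h.1⟩) hC hA h5
  by_cases hs : a = a' ∧ b = b' ∧ c = c'
  · left
    obtain ⟨rfl, rfl, rfl⟩ := hs
    exact ⟨a, b, c, fun x => by rw [ha, or_self], fun x => by rw [hb, or_self],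
      fun x => by rw [hc, or_self]⟩
  · right
    have hsum : b + b' = a + a' ∧ c + c' = a + a' := by
      by_cases ha' : a = a'
      · by_cases hb' : b = b'
        · have hc' : c ≠ c' := fun h => hs ⟨ha', hb', h⟩
          have e1 := sum_eq C A hc' hc ha h5
          have e2 := sum_eq C B hc' hc hb h6
          exact ⟨e2.trans e1.symm, e1.symm⟩
        · have e1 := sum_eq B A hb' hb ha h3
          have e2 := sum_eq B C hb' hb hc h4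
          exact ⟨e1.symm, e2.trans e1.symm⟩
      · exact ⟨sum_eq A B ha' ha hb h1, sum_eq A C ha' ha hc h2⟩
    have key : ∀ S a a' : Fin 7, a + a' = S → ∃ r : Fin 4,
        (a = 4 * S + r7 r ∧ a' = 4 * S - r7 r) ∨ (a' = 4 * S + r7 r ∧ a = 4 * S - r7 r) := by
      decide
    have conv : ∀ (A : Fin 7 → Prop) (a a' : Fin 7), (∀ x, A x ↔ x = a ∨ x = a') →
        ∀ S : Fin 7, a + a' = S →
        ∃ r : Fin 4, ∀ x, A x ↔ x = 4 * S + r7 r ∨ x = 4 * S - r7 r := by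
      intro A a a' hA S hS
      obtain ⟨r, ⟨e1, e2⟩ | ⟨e1, e2⟩⟩ := key S a a' hS
      · exact ⟨r, fun x => by rw [hA, ← e1, ← e2]⟩
      · exact ⟨r, fun x => by rw [hA, ← e1, ← e2, or_comm]⟩
    obtain ⟨p, hp⟩ := conv A a a' ha _ rfl
    obtain ⟨q, hq⟩ := conv B b b' hb _ hsum.1
    obtain ⟨r, hr⟩ := conv C c c' hc _ hsum.2
    refine ⟨4 * (a + a'), p, q, r, ?_, ?_, ?_, hp, hq, hr⟩
    · rintro rfl
      exact hAB _ ⟨(hp _).mpr (Or.inl rfl), (hq _).mpr (Or.inl rfl)⟩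
    · rintro rfl
      exact hAC _ ⟨(hp _).mpr (Or.inl rfl), (hr _).mpr (Or.inl rfl)⟩
    · rintro rfl
      exact hBC _ ⟨(hq _).mpr (Or.inl rfl), (hr _).mpr (Or.inl rfl)⟩

end Pool.Agent.K7
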