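import Pool.Agent.Lib_helper72.K7.D

/-!
# A point of order seven: the divisors of the solutions of the unit equation
-/

set_option autoImplicit false
set_option linter.unusedSectionVars false
set_option linter.unusedSimpArgs false
set_option linter.unusedVariables false

namespace Pool.Agent.K7

open Polynomial WeierstrassCurve.Affine WithZero TN

/-- the divisor of `X - x(rP)` plus `2[0]` -/
def dl (r : Fin 4) (s : Fin 7) : ℤ := (if s = r7 r then 1 else 0) + (if s = - r7 r then 1 else 0)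

/-- its multiplicities -/
def dw (r i : Fin 4) : ℤ := if i = r then (if r = 0 then 2 else 1) else 0

/-- the number of points of an orbit -/
def wt (r : Fin 4) : ℤ := if r = 0 then 1 else 2

lemma mult4 (E : Fin 4 → ℤ) (p r : Fin 4) (hpr : p ≠ r)
    (s : E 0 + 2 * (E 1 + E 2 + E 3) = 0) (z : ∀ i, i ≠ p → i ≠ r → E i = 0) (i : Fin 4) :
    2 * E i = -(wt r * E r) * (dw p i - dw r i) := by
  have z0 := z 0
  have z1 := z 1
  have z2 := z 2
  have z3 := z 3
  fin_cases p <;> fin_cases r <;> simp at hpr z0 z1 z2 z3 <;> fin_cases i <;>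
    simp [dw, wt] <;> omega

section

variable {k : Type*} [Field k] [CharZero k] {t : k} {c₀ c₁ : k} {e e' : Fin 7 → ℤ}

lemma rel_Lc (ht : t ≠ 0) (ht1 : t ≠ 1)
    (hind : ∀ m n : ℤ, t ^ m * (t - 1) ^ n = 1 → m = 0 ∧ n = 0) {c : k} (hc : c ≠ 0)
    {e : Fin 7 → ℤ} {s s' : Fin 7} (hne : s ≠ s') (h0 : OO e s = 0) (h1 : OO e s' = 0)
    (h : Lc t c e s = Lc t c e s') (x : Fin 7) : OO e x = OO e (s + s' - x) :=
  sym e hne h0 h1 (rel ht ht1 hind (mul_left_cancel₀ hc h)) x

/-- **the divisors** -/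
theorem class_div (ht : t ≠ 0) (ht1 : t ≠ 1)
    (hind : ∀ m n : ℤ, t ^ m * (t - 1) ^ n = 1 → m = 0 ∧ n = 0) (h0 : c₀ ≠ 0) (h1 : c₁ ≠ 0)
    (alt : ∀ s, Alt7 t c₀ c₁ e e' s) (he : ∃ s, OO e s ≠ 0) (he' : ∃ s, OO e' s ≠ 0) :
    ∃ h : Fin 7, ∃ p q r : Fin 4, p ≠ q ∧ p ≠ r ∧ q ≠ r ∧ ∃ m : ℤ, 1 ≤ m ∧
      ∀ s, OO e (s + h) = m * (dl p s - dl r s) ∧ OO e' (s + h) = m * (dl q s - dl r s) := by
  have fA : ∀ s, 1 ≤ OO e s → OO e' s = 0 ∧ Lc t c₁ e' s = 1 := by
    intro s hs
    rcases alt s with k1 | ⟨k1, k2, k3, k4⟩ | ⟨k1, k2, k3, k4⟩ | ⟨k1, k2, k3, k4⟩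
    · omega
    · exact ⟨k2, k3⟩
    · omega
    · omega
  have fB : ∀ s, 1 ≤ OO e' s → OO e s = 0 ∧ Lc t c₀ e s = 1 := by
    intro s hs
    rcases alt s with k1 | ⟨k1, k2, k3, k4⟩ | ⟨k1, k2, k3, k4⟩ | ⟨k1, k2, k3, k4⟩
    · omega
    · omega
    · exact ⟨k1, k3⟩
    · omega
  have fC : ∀ s, OO e s ≤ -1 → OO e' s = OO e s ∧ Lc t c₀ e s = - Lc t c₁ e' s := by
    intro s hs
    rcases alt s with k1 | ⟨k1, k2, k3, k4⟩ | ⟨k1, k2, k3, k4⟩ | ⟨k1, k2, k3, k4⟩
    · omega
    · omega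
    · omega
    · exact ⟨k1.symm, k3⟩
  have fC' : ∀ s, OO e' s ≤ -1 → OO e s = OO e' s := by
    intro s hs
    rcases alt s with k1 | ⟨k1, k2, k3, k4⟩ | ⟨k1, k2, k3, k4⟩ | ⟨k1, k2, k3, k4⟩
    · omega
    · omega
    · omega
    · exact k1
  -- the symmetries
  have sA : ∀ s s', s ≠ s' → 1 ≤ OO e s → 1 ≤ OO e s' → ∀ x, OO e' x = OO e' (s + s' - x) := by
    intro s s' hne a a' x
    exact rel_Lc ht ht1 hind h1 hne (fA s a).1 (fA s' a').1
      ((fA s a).2.trans (fA s' a').2.symm) x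
  have sB : ∀ s s', s ≠ s' → 1 ≤ OO e' s → 1 ≤ OO e' s' → ∀ x, OO e x = OO e (s + s' - x) := by
    intro s s' hne a a' x
    exact rel_Lc ht ht1 hind h0 hne (fB s a).1 (fB s' a').1
      ((fB s a).2.trans (fB s' a').2.symm) x
  have Od : ∀ s, OO (fun i => e i - e' i) s = OO e s - OO e' s := by
    intro s; unfold OO; ring
  have sC : ∀ s s', s ≠ s' → OO e s ≤ -1 → OO e s' ≤ -1 →
      ∀ x, OO e x - OO e' x = OO e (s + s' - x) - OO e' (s + s' - x) := by
    intro s s' hne a a' x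
    rw [← Od, ← Od]
    have hL : ∀ s, OO e s ≤ -1 → Lc t c₀ (fun i => e i - e' i) s = - c₁ := by
      intro s hs
      have h2 := (fC s hs).2
      unfold Lc at h2 ⊢
      have h3 : (∏ i, lam t i ^ e' (i + s)) ≠ 0 :=
        Finset.prod_ne_zero_iff.mpr fun i _ => zpow_ne_zero _ (lam_ne ht ht1 i)
      have h4 : (∏ i, lam t i ^ (e (i + s) - e' (i + s))) =
          (∏ i, lam t i ^ e (i + s)) / ∏ i, lam t i ^ e' (i + s) := by
        rw [← Finset.prod_div_distrib]
        exact Finset.prod_congr rfl fun i _ => zpow_sub₀ (lam_ne ht ht1 i) _ _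
      rw [h4, mul_div_assoc', h2]
      field_simp
    refine rel_Lc ht ht1 hind h0 hne ?_ ?_ ((hL s a).trans (hL s' a').symm) x
    · rw [Od, (fC s a).1, sub_self]
    · rw [Od, (fC s' a').1, sub_self]
  -- nonempty fibres
  have pos : ∀ e : Fin 7 → ℤ, (∃ s, OO e s ≠ 0) → (∃ s, 1 ≤ OO e s) ∧ ∃ s, OO e s ≤ -1 := by
    intro e he
    obtain ⟨s, hs⟩ := he
    obtain ⟨i, _, hi⟩ := Finset.exists_pos_of_sum_zero_of_exists_nonzero (s := Finset.univ)
      (fun s => OO e s) (sum_OO e) ⟨s, Finset.mem_univ s, hs⟩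
    obtain ⟨j, _, hj⟩ := Finset.exists_pos_of_sum_zero_of_exists_nonzero (s := Finset.univ)
      (fun s => - OO e s) (by rw [Finset.sum_neg_distrib, sum_OO, neg_zero])
      ⟨s, Finset.mem_univ s, neg_ne_zero.mpr hs⟩
    refine ⟨⟨i, hi⟩, ⟨j, ?_⟩⟩
    omega
  obtain ⟨nA, nC⟩ := pos e he
  obtain ⟨nB, -⟩ := pos e' he'
  have key := fibres (fun s => 1 ≤ OO e s) (fun s => 1 ≤ OO e' s) (fun s => OO e s ≤ -1)
    (fun s h => by have := (fA s h.1).1; omega) (fun s h => by omega)
    (fun s h => by have := (fC s h.2).1; omega) nA nB nC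
    (fun s s' hne a a' x hx => by rw [← sA s s' hne a a' x]; exact hx)
    (fun s s' hne a a' x hx => by
      have h2 := sA s s' hne a a' x
      rw [(fC x hx).1] at h2
      have h3 := fC' (s + s' - x) (by omega)
      omega)
    (fun s s' hne a a' x hx => by rw [← sB s s' hne a a' x]; exact hx)
    (fun s s' hne a a' x hx => by rw [← sB s s' hne a a' x]; exact hx)
    (fun s s' hne a a' x hx => by
      have h2 := sC s s' hne a a' x
      have h3 := (fA x hx).1
      rcases alt (s + s' - x) with k1 | ⟨k1, k2, k3, k4⟩ | ⟨k1, k2, k3, k4⟩ | ⟨k1, k2, k3, k4⟩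
      · omega
      · exact k1
      · omega
      · omega)
    (fun s s' hne a a' x hx => by
      have h2 := sC s s' hne a a' x
      have h3 := (fB x hx).1
      rcases alt (s + s' - x) with k1 | ⟨k1, k2, k3, k4⟩ | ⟨k1, k2, k3, k4⟩ | ⟨k1, k2, k3, k4⟩
      · omega
      · omega
      · exact k2
      · omega)
  rcases key with ⟨a, b, c, ha, hb, hc⟩ | ⟨h, p, q, r, hpq, hpr, hqr, hp, hq, hr⟩
  · -- three points
    exfalso
    have a1 := (ha a).mpr rfl
    have c1 := (hc c).mpr rfl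
    have hac : a ≠ c := by rintro rfl; omega
    have z : ∀ x, x ≠ a ∧ x ≠ c → OO e x = 0 := by
      intro x hx
      have h2 := (ha x).not.mpr hx.1
      have h3 := (hc x).not.mpr hx.2
      omega
    have z' : ∀ x, x ≠ b ∧ x ≠ c → OO e' x = 0 := by
      intro x hx
      have h2 := (hb x).not.mpr hx.1
      have h3 := (hc x).not.mpr hx.2
      by_contra h4
      have h5 := fC' x (by omega)
      omega
    have s1 := sum_OO e
    rw [Fintype.sum_eq_add a c hac z] at s1
    have s2 := wt_OO e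
    rw [Fintype.sum_eq_add a c hac (fun x hx => by rw [z x hx, mul_zero])] at s2
    have h7 : (7 : ℤ) ∣ OO e a * ((a.val : ℤ) - c.val) := by
      refine ⟨e 0 - e 6, ?_⟩
      rw [← s2, show OO e c = - OO e a by omega]; ring
    have hp7 : Prime (7 : ℤ) := by norm_num
    have d7 : (7 : ℤ) ∣ OO e a := by
      rcases hp7.dvd_or_dvd h7 with h8 | h8
      · exact h8
      · exfalso
        have ha7 := a.isLt
        have hc7 := c.isLt
        have : (a.val : ℤ) - c.val ≠ 0 := by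
          intro h9
          exact hac (Fin.ext (by omega))
        omega
    have k7 : OO e a = 7 ∧ ∀ i, i ≠ a → OO e' i ≠ 0 := by
      rcases alt a with k1 | ⟨k1, k2, k3, k4⟩ | ⟨k1, k2, k3, k4⟩ | ⟨k1, k2, k3, k4⟩
      · omega
      · rcases k4 with k4 | k4
        · omega
        · exact k4
      · omega
      · omega
    have ex : ∀ a b c : Fin 7, ∃ i, i ≠ a ∧ i ≠ b ∧ i ≠ c := by decide
    obtain ⟨i, i1, i2, i3⟩ := ex a b c
    exact k7.2 i i1 (z' i ⟨i2, i3⟩)
  · -- three orbits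
    refine ⟨h, p, q, r, hpq, hpr, hqr, ?_⟩
    have A1 := (hp (h + r7 p)).mpr (Or.inl rfl)
    have A2 := (hp (h - r7 p)).mpr (Or.inr rfl)
    have B1 := (hq (h + r7 q)).mpr (Or.inl rfl)
    have B2 := (hq (h - r7 q)).mpr (Or.inr rfl)
    have C1 := (hr (h + r7 r)).mpr (Or.inl rfl)
    have C2 := (hr (h - r7 r)).mpr (Or.inr rfl)
    have hne : ∀ (h : Fin 7) (r : Fin 4), r ≠ 0 → h + r7 r ≠ h - r7 r := by decide
    have hsum : ∀ r : Fin 4, h + r7 r + (h - r7 r) = h + h := by intro r; abel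
    have SA : p ≠ 0 → ∀ x, OO e' x = OO e' (h + h - x) := by
      intro hp0 x
      have := sA _ _ (hne h p hp0) A1 A2 x
      rwa [hsum] at this
    have SB : q ≠ 0 → ∀ x, OO e x = OO e (h + h - x) := by
      intro hp0 x
      have := sB _ _ (hne h q hp0) B1 B2 x
      rwa [hsum] at this
    have SC : r ≠ 0 → ∀ x, OO e x - OO e' x = OO e (h + h - x) - OO e' (h + h - x) := by
      intro hp0 x
      have := sC _ _ (hne h r hp0) C1 C2 x
      rwa [hsum] at this
    have S : ∀ x, OO e x = OO e (h + h - x) ∧ OO e' x = OO e' (h + h - x) := by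
      intro x
      by_cases p0 : p = 0
      · have q0 : q ≠ 0 := fun h => hpq (p0.trans h.symm)
        have r0 : r ≠ 0 := fun h => hpr (p0.trans h.symm)
        have e1 := SB q0 x
        have e2 := SC r0 x
        exact ⟨e1, by omega⟩
      · by_cases q0 : q = 0
        · have r0 : r ≠ 0 := fun h => hqr (q0.trans h.symm)
          have e1 := SA p0 x
          have e2 := SC r0 x
          exact ⟨by omega, e1⟩
        · exact ⟨SB q0 x, SA p0 x⟩
    have tot : ∀ e : Fin 7 → ℤ, (∀ x, OO e x = OO e (h + h - x)) →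
        OO e (h + r7 0) + 2 * (OO e (h + r7 1) + OO e (h + r7 2) + OO e (h + r7 3)) = 0 := by
      intro e Se
      have h2 := sum_OO e
      rw [← Equiv.sum_comp (Equiv.addLeft h) (fun s => OO e s), Fin.sum_univ_seven] at h2
      simp only [Equiv.coe_addLeft] at h2
      have h4 := Se (h + 4)
      have h5 := Se (h + 5)
      have h6 := Se (h + 6)
      rw [show h + h - (h + 4) = h + 3 by
        rw [show (3 : Fin 7) = -4 by decide]; abel] at h4
      rw [show h + h - (h + 5) = h + 2 by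
        rw [show (2 : Fin 7) = -5 by decide]; abel] at h5
      rw [show h + h - (h + 6) = h + 1 by
        rw [show (1 : Fin 7) = -6 by decide]; abel] at h6
      have r0 : r7 0 = 0 := rfl
      have r1 : r7 1 = 1 := rfl
      have r2 : r7 2 = 2 := rfl
      have r3 : r7 3 = 3 := rfl
      rw [r0, r1, r2, r3]
      omega
    have r7i : ∀ (h : Fin 7) (i p : Fin 4), i ≠ p → ¬ (h + r7 i = h + r7 p ∨ h + r7 i = h - r7 p) := by
      decide
    have K1 := mult4 (fun i => OO e (h + r7 i)) p r hpr (tot e fun x => (S x).1) (by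
      intro i i1 i2
      have h2 := (hp (h + r7 i)).not.mpr (r7i h i p i1)
      have h3 := (hr (h + r7 i)).not.mpr (r7i h i r i2)
      omega)
    have K2 := mult4 (fun i => OO e' (h + r7 i)) q r hqr (tot e' fun x => (S x).2) (by
      intro i i1 i2
      have h2 := (hq (h + r7 i)).not.mpr (r7i h i q i1)
      have h3 := (hr (h + r7 i)).not.mpr (r7i h i r i2)
      by_contra h4
      have h5 := fC' (h + r7 i) (by omega)
      omega)
    rw [(fC _ C1).1] at K2
    -- the multiplicity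
    obtain ⟨m, hm⟩ : ∃ m : ℤ, -(wt r * OO e (h + r7 r)) = 2 * m := by
      by_cases r0 : r = 0
      · have h2 := K1 p
        refine ⟨OO e (h + r7 p), ?_⟩
        rw [h2]
        have p0 : p ≠ 0 := fun h => hpr (h.trans r0.symm)
        simp [dw, p0, hpr, r0]
      · refine ⟨- OO e (h + r7 r), ?_⟩
        simp [wt, r0]
    refine ⟨m, ?_, ?_⟩
    · have : 1 ≤ wt r := by unfold wt; split_ifs <;> norm_num
      nlinarith
    · have dlw : ∀ (p i : Fin 4), dl p (r7 i) = dw p i := by decide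
      have dls : ∀ (p : Fin 4) (s : Fin 7), dl p (-s) = dl p s := by decide
      have cov : ∀ s : Fin 7, ∃ i : Fin 4, s = r7 i ∨ s = - r7 i := by decide
      rw [hm] at K1 K2
      have K1' : ∀ i, OO e (h + r7 i) = m * (dl p (r7 i) - dl r (r7 i)) := by
        intro i
        have := K1 i
        rw [mul_assoc] at this
        rw [dlw, dlw]
        exact mul_left_cancel₀ (by norm_num) this
      have K2' : ∀ i, OO e' (h + r7 i) = m * (dl q (r7 i) - dl r (r7 i)) := by
        intro i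
        have := K2 i
        rw [mul_assoc] at this
        rw [dlw, dlw]
        exact mul_left_cancel₀ (by norm_num) this
      intro s
      obtain ⟨i, rfl | rfl⟩ := cov s
      · rw [add_comm, K1', K2']; exact ⟨rfl, rfl⟩
      · have hh : h + h - (- r7 i + h) = h + r7 i := by abel
        rw [(S (- r7 i + h)).1, (S (- r7 i + h)).2, hh, K1', K2', dls, dls, dls]
        exact ⟨rfl, rfl⟩

end

end Pool.Agent.K7
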