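import Pool.Agent.Lib_helper72.K7.E

/-!
# A point of order seven: the unit equation
-/

set_option autoImplicit false
set_option linter.unusedSectionVars false
set_option linter.unusedSimpArgs false
set_option linter.unusedVariables false

namespace Pool.Agent.K7

open Polynomial WeierstrassCurve.Affine WithZero TN

/-- the exponents of `X - x(rP)` -/
def ep : Fin 4 → Fin 6 → ℤ :=
  ![![0, 0, 0, 0, 0, 0], ![1, 0, 0, 0, 0, 0], ![0, 1, 0, 0, 0, 0], ![0, 0, 1, 0, 0, 0]]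

lemma Dn_ep (r : Fin 4) (i : Fin 7) : Dn (ep r) i = dl r i - 2 * (if i = 0 then 1 else 0) := by
  revert r i
  unfold Dn
  decide

lemma Dn_comb (m : ℤ) (p r : Fin 4) (i : Fin 7) :
    Dn (fun j => m * (ep p j - ep r j)) i = m * (dl p i - dl r i) := by
  have h : Dn (fun j => m * (ep p j - ep r j)) i = m * (Dn (ep p) i - Dn (ep r) i) := by
    unfold Dn
    rw [← Finset.sum_sub_distrib, Finset.mul_sum]
    exact Finset.sum_congr rfl fun j _ => by ring
  rw [h, Dn_ep, Dn_ep]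
  ring

lemma Dn_inj {n n' : Fin 6 → ℤ} (h : ∀ i, Dn n i = Dn n' i) : n = n' := by
  have h1 := h 1
  have h2 := h 2
  have h3 := h 3
  have h4 := h 4
  have h5 := h 5
  have h6 := h 6
  simp [Dn, Fin.sum_univ_six, oU] at h1 h2 h3 h4 h5 h6
  funext j
  fin_cases j <;> simp <;> omega

section

variable {k : Type*} [Field k] {F : Type*} [Field F] [Algebra k F] {t : k} {x y : F}

lemma io_mo (h : Gen (bb t) (cc t) x y) (n : Fin 6 → ℤ) :
    TN.io h (mo t n) = ∏ j, uF t x y j ^ n j := by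
  unfold mo; rw [map_prod]
  refine Finset.prod_congr rfl fun j _ => ?_
  rw [map_zpow₀, io_uK]

variable (t) in
/-- the polynomials `1, X, X - b, X - c` -/
noncomputable def PQ : Fin 4 → k[X] := ![1, X, X - C (bb t), X - C (cc t)]

variable (t x) in
/-- their values -/
def Qx : Fin 4 → F := ![1, x, x - algebraMap k F (bb t), x - algebraMap k F (cc t)]

lemma aeval_PQ (r : Fin 4) : (PQ t r).eval₂ (algebraMap k F) x = Qx t x r := by
  fin_cases r <;> simp [PQ, Qx]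

lemma Qx_ep (h : Gen (bb t) (cc t) x y) (r : Fin 4) : Qx t x r = ∏ j, uF t x y j ^ ep r j := by
  fin_cases r <;> simp [Qx, ep, uF, Fin.prod_univ_six]

lemma Qx_ne (h : Gen (bb t) (cc t) x y) (r : Fin 4) : Qx t x r ≠ 0 := by
  rw [Qx_ep h]
  exact Finset.prod_ne_zero_iff.mpr fun j _ => zpow_ne_zero _ (uF_ne h j)

lemma prod_comb (h : Gen (bb t) (cc t) x y) (m : ℤ) (p r : Fin 4) :
    ∏ j, uF t x y j ^ (m * (ep p j - ep r j)) = (Qx t x p / Qx t x r) ^ m := by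
  rw [Qx_ep h, Qx_ep h, ← Finset.prod_div_distrib, ← Finset.prod_zpow]
  refine Finset.prod_congr rfl fun j _ => ?_
  rw [← zpow_sub₀ (uF_ne h j), ← zpow_mul, mul_comm]

variable (t) in
/-- the Wronskians -/
def ww : Fin 4 → Fin 4 → k :=
  ![![0, 1, 1, 1], ![-1, 0, bb t, cc t], ![-1, - bb t, 0, cc t - bb t],
    ![-1, - cc t, bb t - cc t, 0]]

lemma wr_PQ (i j : Fin 4) :
    PQ t i * derivative (PQ t j) - derivative (PQ t i) * PQ t j = C (ww t i j) := by
  fin_cases i <;> fin_cases j <;> simp [PQ, ww] <;> ring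

lemma bc_ne (ht : t ≠ 0) (ht1 : t ≠ 1) : bb t - cc t ≠ 0 := by
  unfold bb cc
  rw [show t ^ 2 * (t - 1) - t * (t - 1) = t * (t - 1) ^ 2 by ring]
  exact mul_ne_zero ht (pow_ne_zero 2 (sub_ne_zero.mpr ht1))

lemma ww_ne (ht : t ≠ 0) (ht1 : t ≠ 1) {i j : Fin 4} (hij : i ≠ j) : ww t i j ≠ 0 := by
  have h1 := bb_ne ht ht1
  have h2 := cc_ne ht ht1
  have h3 := bc_ne ht ht1
  have h4 : cc t - bb t ≠ 0 := by intro h; apply h3; linear_combination -h
  fin_cases i <;> fin_cases j <;> simp [ww, h1, h2, h3, h4] at hij ⊢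

lemma PQ_ne (i : Fin 4) : PQ t i ≠ 0 := by
  fin_cases i
  · exact one_ne_zero
  · exact X_ne_zero
  · exact X_sub_C_ne_zero _
  · exact X_sub_C_ne_zero _

variable (t) in
/-- the roots -/
def rt : Fin 4 → k := ![0, 0, bb t, cc t]

lemma ev_rt (ht : t ≠ 0) (ht1 : t ≠ 1) {i : Fin 4} (hi : i ≠ 0) : (PQ t i).eval (rt t i) = 0 := by
  fin_cases i <;> simp [PQ, rt] at hi ⊢

lemma ev_rt' (ht : t ≠ 0) (ht1 : t ≠ 1) {i j : Fin 4} (hi : i ≠ 0) (hj : j ≠ i) :
    (PQ t j).eval (rt t i) ≠ 0 := by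
  have h1 := bb_ne ht ht1
  have h2 := cc_ne ht ht1
  have h3 := bc_ne ht ht1
  have h4 : cc t - bb t ≠ 0 := by intro h; apply h3; linear_combination -h
  fin_cases i <;> fin_cases j <;> simp [PQ, rt, h1, h2, h3, h4] at hi hj ⊢

/-- **powers of linear forms** -/
theorem powers [CharZero k] (ht : t ≠ 0) (ht1 : t ≠ 1) {a₀ a₁ : k} (h0 : a₀ ≠ 0) (h1 : a₁ ≠ 0)
    {p q r : Fin 4} (hpq : p ≠ q) (hpr : p ≠ r) (hqr : q ≠ r) {n : ℕ} (hn : 1 ≤ n)
    (h : C a₀ * PQ t p ^ n + C a₁ * PQ t q ^ n = PQ t r ^ n) : n = 1 := by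
  by_contra hne
  obtain ⟨m, rfl⟩ : ∃ m, n = m + 2 := ⟨n - 2, by omega⟩
  have hd := congrArg derivative h
  simp only [derivative_add, derivative_mul, derivative_C, zero_mul, zero_add,
    derivative_pow] at hd
  -- W(P_p^n, .)
  have hm : (C (((m + 2 : ℕ) : k))) ≠ 0 := by
    rw [Ne, C_eq_zero]; exact_mod_cast (by omega : m + 2 ≠ 0)
  have hW : C a₁ * PQ t q ^ (m + 1) * C (ww t p q) = PQ t r ^ (m + 1) * C (ww t p r) := by
    rw [← wr_PQ, ← wr_PQ]
    refine mul_left_cancel₀ hm ?_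
    have e1 : m + 2 - 1 = m + 1 := by omega
    rw [e1] at hd
    have e2 : ∀ P : k[X], P ^ (m + 2) = P ^ (m + 1) * P := fun P => pow_succ P (m + 1)
    rw [e2, e2, e2] at h
    linear_combination (PQ t p) * hd - C (((m + 2 : ℕ) : k)) * derivative (PQ t p) * h
  by_cases q0 : q = 0
  · have r0 : r ≠ 0 := fun h => hqr (q0.trans h.symm)
    have h2 := congrArg (eval (rt t r)) hW
    simp only [eval_mul, eval_pow, eval_C, ev_rt ht ht1 r0, zero_pow (Nat.succ_ne_zero m),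
      zero_mul] at h2
    exact mul_ne_zero (mul_ne_zero h1 (pow_ne_zero _ (ev_rt' ht ht1 r0 hqr)))
      (ww_ne ht ht1 hpq) h2
  · have h2 := congrArg (eval (rt t q)) hW
    simp only [eval_mul, eval_pow, eval_C, ev_rt ht ht1 q0, zero_pow (Nat.succ_ne_zero m),
      mul_zero, zero_mul] at h2
    exact mul_ne_zero (pow_ne_zero _ (ev_rt' ht ht1 q0 hqr.symm)) (ww_ne ht ht1 hpr) h2.symm

lemma lin (ht : t ≠ 0) (ht1 : t ≠ 1) {a₀ a₁ : k}
    {p q r : Fin 4} (h : C a₀ * PQ t p + C a₁ * PQ t q = PQ t r) :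
    a₀ * ww t p q = ww t r q := by
  have hd := congrArg derivative h
  simp only [derivative_add, derivative_mul, derivative_C, zero_mul, zero_add] at hd
  have h2 : C a₀ * C (ww t p q) = C (ww t r q) := by
    rw [← wr_PQ, ← wr_PQ]
    linear_combination derivative (PQ t q) * h - PQ t q * hd
  rw [← C_mul] at h2
  exact C_injective h2

variable (t x y) in
/-- the functions of degree two: `i` the centre, `r` the omitted orbit -/
def TT (i : Fin 7) : Fin 4 → F :=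
  ![XF t x y i * (algebraMap k F (bb t) - algebraMap k F (cc t)) /
      ((XF t x y i - algebraMap k F (cc t)) * algebraMap k F (bb t)),
    (XF t x y i - algebraMap k F (bb t)) / (algebraMap k F (cc t) - algebraMap k F (bb t)),
    XF t x y i / algebraMap k F (cc t), XF t x y i / algebraMap k F (bb t)]

lemma orb_of {u v f : F} (hv : v = 1 - u) (hu : u ≠ 0) (hv0 : v ≠ 0)
    (h : f = u ∨ f = v ∨ f = 1 / u ∨ f = - v / u ∨ f = 1 / v ∨ f = - u / v) : Orb u f := by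
  unfold Orb
  rcases h with h | h | h | h | h | h
  · exact Or.inl h
  · exact Or.inr (Or.inl (h.trans hv))
  · exact Or.inr (Or.inr (Or.inl h))
  · refine Or.inr (Or.inr (Or.inr (Or.inl ?_)))
    rw [h, hv]; field_simp; ring
  · refine Or.inr (Or.inr (Or.inr (Or.inr (Or.inl ?_))))
    rw [h, hv]
  · refine Or.inr (Or.inr (Or.inr (Or.inr (Or.inr ?_))))
    rw [h, hv, show u - 1 = -(1 - u) by ring, div_neg, neg_div]

/-- the 24 cases -/
lemma final (ht : t ≠ 0) (ht1 : t ≠ 1) (h : Gen (bb t) (cc t) x y) {a₀ : k} {p q r : Fin 4}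
    (hpq : p ≠ q) (hpr : p ≠ r) (hqr : q ≠ r) (ha : a₀ * ww t p q = ww t r q) :
    ∃ s : Fin 4, Orb (![x * (algebraMap k F (bb t) - algebraMap k F (cc t)) /
        ((x - algebraMap k F (cc t)) * algebraMap k F (bb t)),
      (x - algebraMap k F (bb t)) / (algebraMap k F (cc t) - algebraMap k F (bb t)),
      x / algebraMap k F (cc t), x / algebraMap k F (bb t)] s)
      (algebraMap k F a₀ * (Qx t x p / Qx t x r)) := by
  have ha' := congrArg (algebraMap k F) ha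
  rw [map_mul] at ha'
  have hb : algebraMap k F (bb t) ≠ 0 := (_root_.map_ne_zero _).mpr (bb_ne ht ht1)
  have hc : algebraMap k F (cc t) ≠ 0 := (_root_.map_ne_zero _).mpr (cc_ne ht ht1)
  have hbc : algebraMap k F (bb t) - algebraMap k F (cc t) ≠ 0 := by
    rw [← map_sub]; exact (_root_.map_ne_zero _).mpr (bc_ne ht ht1)
  have hcb : algebraMap k F (cc t) - algebraMap k F (bb t) ≠ 0 := by
    intro h; apply hbc; linear_combination -h
  have u0 : x ≠ 0 := uF_ne h 0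
  have u1 : x - algebraMap k F (bb t) ≠ 0 := uF_ne h 1
  have u2 : x - algebraMap k F (cc t) ≠ 0 := uF_ne h 2
  have w : algebraMap k F (ww t p q) ≠ 0 := (_root_.map_ne_zero _).mpr (ww_ne ht ht1 hpq)
  rw [← eq_div_iff w] at ha'
  rw [ha']
  clear ha ha' w
  set B := algebraMap k F (bb t) with hB
  set C := algebraMap k F (cc t) with hC
  have d1 : B - x ≠ 0 := by intro h; apply u1; linear_combination -h
  have d2 : C - x ≠ 0 := by intro h; apply u2; linear_combination -h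
  have V0 : C * (x - B) / ((x - C) * B) = 1 - x * (B - C) / ((x - C) * B) := by
    field_simp; ring
  have V1 : -(x - C) / (C - B) = 1 - (x - B) / (C - B) := by field_simp; ring
  have V2 : -(x - C) / C = 1 - x / C := by field_simp; ring
  have V3 : -(x - B) / B = 1 - x / B := by field_simp; ring
  have U0 : x * (B - C) / ((x - C) * B) ≠ 0 :=
    div_ne_zero (mul_ne_zero u0 hbc) (mul_ne_zero u2 hb)
  have U1 : (x - B) / (C - B) ≠ 0 := div_ne_zero u1 hcb
  have U2 : x / C ≠ 0 := div_ne_zero u0 hc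
  have U3 : x / B ≠ 0 := div_ne_zero u0 hb
  have W0 : C * (x - B) / ((x - C) * B) ≠ 0 :=
    div_ne_zero (mul_ne_zero hc u1) (mul_ne_zero u2 hb)
  have W1 : -(x - C) / (C - B) ≠ 0 := div_ne_zero (neg_ne_zero.mpr u2) hcb
  have W2 : -(x - C) / C ≠ 0 := div_ne_zero (neg_ne_zero.mpr u2) hc
  have W3 : -(x - B) / B ≠ 0 := div_ne_zero (neg_ne_zero.mpr u1) hb
  fin_cases p <;> fin_cases q <;> fin_cases r <;>
    first
    | exact absurd rfl hpq
    | exact absurd rfl hpr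
    | exact absurd rfl hqr
    | skip
  · refine ⟨3, orb_of V3 U3 W3 (Or.inr (Or.inr (Or.inr (Or.inr (Or.inl ?_)))))⟩
    simp [ww, Qx, ← hB, ← hC] <;> field_simp <;> try ring
  · refine ⟨2, orb_of V2 U2 W2 (Or.inr (Or.inr (Or.inr (Or.inr (Or.inl ?_)))))⟩
    simp [ww, Qx, ← hB, ← hC] <;> field_simp <;> try ring
  · refine ⟨3, orb_of V3 U3 W3 (Or.inr (Or.inr (Or.inl ?_)))⟩
    simp [ww, Qx, ← hB, ← hC] <;> field_simp <;> try ring
  · refine ⟨1, orb_of V1 U1 W1 (Or.inr (Or.inr (Or.inr (Or.inr (Or.inl ?_)))))⟩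
    simp [ww, Qx, ← hB, ← hC] <;> field_simp <;> try ring
  · refine ⟨2, orb_of V2 U2 W2 (Or.inr (Or.inr (Or.inl ?_)))⟩
    simp [ww, Qx, ← hB, ← hC] <;> field_simp <;> try ring
  · refine ⟨1, orb_of V1 U1 W1 (Or.inr (Or.inr (Or.inl ?_)))⟩
    simp [ww, Qx, ← hB, ← hC] <;> field_simp <;> try ring
  · refine ⟨3, orb_of V3 U3 W3 (Or.inr (Or.inr (Or.inr (Or.inr (Or.inr ?_)))))⟩
    simp [ww, Qx, ← hB, ← hC] <;> field_simp <;> try ring
  · refine ⟨2, orb_of V2 U2 W2 (Or.inr (Or.inr (Or.inr (Or.inr (Or.inr ?_)))))⟩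
    simp [ww, Qx, ← hB, ← hC] <;> field_simp <;> try ring
  · refine ⟨3, orb_of V3 U3 W3 (Or.inl ?_)⟩
    simp [ww, Qx, ← hB, ← hC] <;> field_simp <;> try ring
  · refine ⟨0, orb_of V0 U0 W0 (Or.inl ?_)⟩
    simp [ww, Qx, ← hB, ← hC] <;> field_simp <;> try ring
  · refine ⟨2, orb_of V2 U2 W2 (Or.inl ?_)⟩
    simp [ww, Qx, ← hB, ← hC] <;> field_simp <;> try ring
  · refine ⟨0, orb_of V0 U0 W0 (Or.inr (Or.inr (Or.inr (Or.inr (Or.inr ?_)))))⟩
    simp [ww, Qx, ← hB, ← hC] <;> field_simp <;> try ring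
  · refine ⟨3, orb_of V3 U3 W3 (Or.inr (Or.inr (Or.inr (Or.inl ?_))))⟩
    simp [ww, Qx, ← hB, ← hC] <;> field_simp <;> try ring
  · refine ⟨1, orb_of V1 U1 W1 (Or.inr (Or.inr (Or.inr (Or.inr (Or.inr ?_)))))⟩
    simp [ww, Qx, ← hB, ← hC] <;> field_simp <;> try ring
  · refine ⟨3, orb_of V3 U3 W3 (Or.inr (Or.inl ?_))⟩
    simp [ww, Qx, ← hB, ← hC] <;> field_simp <;> try ring
  · refine ⟨0, orb_of V0 U0 W0 (Or.inr (Or.inl ?_))⟩
    simp [ww, Qx, ← hB, ← hC] <;> field_simp <;> try ring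
  · refine ⟨1, orb_of V1 U1 W1 (Or.inl ?_)⟩
    simp [ww, Qx, ← hB, ← hC] <;> field_simp <;> try ring
  · refine ⟨0, orb_of V0 U0 W0 (Or.inr (Or.inr (Or.inr (Or.inl ?_))))⟩
    simp [ww, Qx, ← hB, ← hC] <;> field_simp <;> try ring
  · refine ⟨2, orb_of V2 U2 W2 (Or.inr (Or.inr (Or.inr (Or.inl ?_))))⟩
    simp [ww, Qx, ← hB, ← hC] <;> field_simp <;> try ring
  · refine ⟨1, orb_of V1 U1 W1 (Or.inr (Or.inr (Or.inr (Or.inl ?_))))⟩
    simp [ww, Qx, ← hB, ← hC] <;> field_simp <;> try ring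
  · refine ⟨2, orb_of V2 U2 W2 (Or.inr (Or.inl ?_))⟩
    simp [ww, Qx, ← hB, ← hC] <;> field_simp <;> try ring
  · refine ⟨0, orb_of V0 U0 W0 (Or.inr (Or.inr (Or.inr (Or.inr (Or.inl ?_)))))⟩
    simp [ww, Qx, ← hB, ← hC] <;> field_simp <;> try ring
  · refine ⟨1, orb_of V1 U1 W1 (Or.inr (Or.inl ?_))⟩
    simp [ww, Qx, ← hB, ← hC] <;> field_simp <;> try ring
  · refine ⟨0, orb_of V0 U0 W0 (Or.inr (Or.inr (Or.inl ?_)))⟩
    simp [ww, Qx, ← hB, ← hC] <;> field_simp <;> try ring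

end

end Pool.Agent.K7
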