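import Pool.Agent.Lib_helper72.K7.F

/-!
# A point of order seven: the unit equation, final form
-/

set_option autoImplicit false
set_option linter.unusedSectionVars false
set_option linter.unusedSimpArgs false
set_option linter.unusedVariables false

namespace Pool.Agent.K7

open Polynomial WeierstrassCurve.Affine WithZero TN

section

variable {k : Type*} [Field k] {F : Type*} [Field F] [Algebra k F] {t : k} {x y : F}

lemma XF_zero : XF t x y 0 = x := by
  simp [XF, lam, ex, uF, Fin.prod_univ_six]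

lemma mon_form (ht : t ≠ 0) (ht1 : t ≠ 1) (h : Gen (bb t) (cc t) x y) {e : Fin 7 → ℤ} {m : ℤ}
    {p r : Fin 4} (he : ∀ s, OO e s = m * (dl p s - dl r s)) :
    mon t x y e = algebraMap k F (∏ i, lam t i ^ e i) * (Qx t x p / Qx t x r) ^ m := by
  have dls : ∀ (p : Fin 4) (s : Fin 7), dl p (-s) = dl p s := by decide
  have hN : NN e = fun j => m * (ep p j - ep r j) := by
    refine Dn_inj fun i => ?_
    rw [Dn_NN, Dn_comb, he, dls, dls]
  rw [mon_eq h, hN, io_mo, prod_comb h]

lemma mon_const (ht : t ≠ 0) (ht1 : t ≠ 1) (h : Gen (bb t) (cc t) x y) {e : Fin 7 → ℤ}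
    (he : ∀ s, OO e s = 0) :
    mon t x y e = algebraMap k F (∏ i, lam t i ^ e i) := by
  rw [mon_form ht ht1 h (m := 0) (p := 0) (r := 0) (fun s => by rw [he]; ring), zpow_zero,
    mul_one]

/-- **the unit equation for a point of order seven** -/
theorem unit_eq7 [CharZero k] (ht : t ≠ 0) (ht1 : t ≠ 1)
    (hind : ∀ m n : ℤ, t ^ m * (t - 1) ^ n = 1 → m = 0 ∧ n = 0)
    (h : Gen (bb t) (cc t) x y) {c₀ c₁ : k} (h0 : c₀ ≠ 0) (h1 : c₁ ≠ 0) {e e' : Fin 7 → ℤ}
    (hu : algebraMap k F c₀ * mon t x y e + algebraMap k F c₁ * mon t x y e' = 1) :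
    (∃ s : k, algebraMap k F c₀ * mon t x y e = algebraMap k F s) ∨
    ∃ i : Fin 7, ∃ r : Fin 4, Orb (TT t x y i r) (algebraMap k F c₀ * mon t x y e) := by
  by_cases he : ∃ s, OO e s ≠ 0
  · by_cases he' : ∃ s, OO e' s ≠ 0
    · right
      obtain ⟨σ, p, q, r, hpq, hpr, hqr, m, hm, hS⟩ :=
        class_div ht ht1 hind h0 h1 (bound7 ht ht1 h h0 h1 hu) he he'
      obtain ⟨x', y', h', hs⟩ := exists_shift ht ht1 h σ
      have hx : x' = XF t x y σ := by
        have := hs 0
        rwa [XF_zero, zero_add] at this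
      have m1 := mon_shift σ hs e
      have m2 := mon_shift σ hs e'
      rw [mon_form ht ht1 h' (m := m) (p := p) (r := r)
        (fun s => by rw [OO_shift]; exact (hS s).1)] at m1
      rw [mon_form ht ht1 h' (m := m) (p := q) (r := r)
        (fun s => by rw [OO_shift]; exact (hS s).2)] at m2
      obtain ⟨n, rfl⟩ : ∃ n : ℕ, m = n := ⟨m.toNat, by omega⟩
      rw [zpow_natCast] at m1 m2
      set a₀ := c₀ * ∏ i, lam t i ^ e (i + σ) with ha₀
      set a₁ := c₁ * ∏ i, lam t i ^ e' (i + σ) with ha₁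
      have n0 : a₀ ≠ 0 := mul_ne_zero h0
        (Finset.prod_ne_zero_iff.mpr fun i _ => zpow_ne_zero _ (lam_ne ht ht1 i))
      have n1 : a₁ ≠ 0 := mul_ne_zero h1
        (Finset.prod_ne_zero_iff.mpr fun i _ => zpow_ne_zero _ (lam_ne ht ht1 i))
      have f1 : algebraMap k F c₀ * mon t x y e =
          algebraMap k F a₀ * (Qx t x' p / Qx t x' r) ^ n := by
        rw [m1, ha₀, map_mul, mul_assoc]
      have f2 : algebraMap k F c₁ * mon t x y e' =
          algebraMap k F a₁ * (Qx t x' q / Qx t x' r) ^ n := by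
        rw [m2, ha₁, map_mul, mul_assoc]
      rw [f1, f2] at hu
      have hr := Qx_ne (t := t) h' r
      have hP : C a₀ * PQ t p ^ n + C a₁ * PQ t q ^ n = PQ t r ^ n := by
        rw [← sub_eq_zero]
        apply h'.tr
        simp only [eval₂_sub, eval₂_add, eval₂_mul, eval₂_C, eval₂_pow, aeval_PQ]
        rw [div_pow, div_pow] at hu
        have hrn := pow_ne_zero n hr
        field_simp at hu
        rw [sub_eq_zero]
        exact hu
      have hn1 := powers ht ht1 n0 n1 hpq hpr hqr (by omega) hP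
      subst hn1
      rw [pow_one, pow_one, pow_one] at hP
      obtain ⟨s, hs'⟩ := final ht ht1 h' hpq hpr hqr (lin ht ht1 hP)
      refine ⟨σ, s, ?_⟩
      rw [f1, pow_one]
      rw [hx] at hs' ⊢
      exact hs'
    · left
      push Not at he'
      rw [mon_const ht ht1 h he'] at hu
      refine ⟨1 - c₁ * ∏ i, lam t i ^ e' i, ?_⟩
      rw [map_sub, map_one, map_mul]
      linear_combination hu
  · left
    push Not at he
    rw [mon_const ht ht1 h he]
    exact ⟨c₀ * ∏ i, lam t i ^ e i, by rw [map_mul]⟩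

end

end Pool.Agent.K7
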