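import Pool.Agent.Lib_helper72.K7.I
import Pool.Agent.Lib_helper72.K7G.Cert
import Pool.Agent.Lib_helper72.KC.W

/-!
# A point of order seven: closed elements
-/

set_option autoImplicit false
set_option linter.unusedSectionVars false
set_option linter.unusedSimpArgs false
set_option linter.unusedVariables false

open scoped TensorProduct

namespace Pool.Agent.K7

open KC72 TN MK4 K7G

/-- `b` -/
def gB : Mo := (false, [0, 0, 0, 0, 0, 0, 2, 1])
/-- `c` -/
def gC : Mo := (false, [0, 0, 0, 0, 0, 0, 1, 1])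
/-- `t - 1` -/
def gT1 : Mo := (false, [0, 0, 0, 0, 0, 0, 0, 1])
/-- `b - c` -/
def gbc : Mo := (false, [0, 0, 0, 0, 0, 0, 1, 2])

/-- the basis -/
def gU : ℕ → Mo
  | 0 => (false, [1, 0, 0, 0, 0, 0, 0, 0])
  | 1 => (false, [0, 1, 0, 0, 0, 0, 0, 0])
  | 2 => (false, [0, 0, 1, 0, 0, 0, 0, 0])
  | 3 => (false, [0, 0, 0, 1, 0, 0, 0, 0])
  | 4 => (false, [0, 0, 0, 0, 1, 0, 0, 0])
  | _ => (false, [0, 0, 0, 0, 0, 1, 0, 0])

/-- the basis after `i` translations -/
def gD (i j : ℕ) : Mo := dd gB gC gT1 gU i j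

/-- the classes -/
def gcl (i : ℕ) : ℕ → Mo × Mo
  | 0 => (((gD i 0).mul gbc).div ((gD i 2).mul gB), (gC.mul (gD i 1)).div ((gD i 2).mul gB))
  | 1 => (((gD i 1).div gbc).neg, (gD i 2).div gbc)
  | 2 => ((gD i 0).div gC, ((gD i 2).div gC).neg)
  | _ => ((gD i 0).div gB, ((gD i 1).div gB).neg)

lemma g7_cls_eq : g7_cls = (List.range 28).map (fun c => gcl (c / 4) (c % 4)) := by
  decide +kernel

lemma g7_len : g7_cls.length = 28 := by decide +kernel

section

variable {k : Type*} [Field k] {F : Type*} [Field F] [Algebra k F] {t : k} {x y : F}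

variable (t x y) in
/-- the generators -/
def GG : Fin 8 → F := ![x, x - algebraMap k F (bb t), x - algebraMap k F (cc t), y,
  y - algebraMap k F (cc t) * x, y - algebraMap k F (t - 1) * x, algebraMap k F t,
  algebraMap k F (t - 1)]

lemma GG_ne [CharZero k] (ht : t ≠ 0) (ht1 : t ≠ 1) (h : Gen (bb t) (cc t) x y) (i : Fin 8) :
    GG t x y i ≠ 0 := by
  have h0 : algebraMap k F t ≠ 0 := (_root_.map_ne_zero _).mpr ht
  have h1 : algebraMap k F (t - 1) ≠ 0 := (_root_.map_ne_zero _).mpr (sub_ne_zero.mpr ht1)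
  fin_cases i
  · exact uF_ne h 0
  · exact uF_ne h 1
  · exact uF_ne h 2
  · exact uF_ne h 3
  · exact uF_ne h 4
  · exact uF_ne h 5
  · exact h0
  · exact h1

lemma GGl_ne [CharZero k] (ht : t ≠ 0) (ht1 : t ≠ 1) (h : Gen (bb t) (cc t) x y) :
    ∀ z ∈ List.ofFn (GG t x y), z ≠ 0 := by
  intro z hz
  rw [List.mem_ofFn] at hz
  obtain ⟨i, rfl⟩ := hz
  exact GG_ne ht ht1 h i

lemma ev_GG (s : Bool) (e0 e1 e2 e3 e4 e5 e6 e7 : ℤ) :
    KC72.ev (List.ofFn (GG t x y)) (s, [e0, e1, e2, e3, e4, e5, e6, e7]) =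
      (bif s then -1 else 1) * (x ^ e0 * ((x - algebraMap k F (bb t)) ^ e1 *
      ((x - algebraMap k F (cc t)) ^ e2 * (y ^ e3 * ((y - algebraMap k F (cc t) * x) ^ e4 *
      ((y - algebraMap k F (t - 1) * x) ^ e5 * (algebraMap k F t ^ e6 *
      (algebraMap k F (t - 1) ^ e7 * 1)))))))) := rfl

lemma ev_gB : KC72.ev (List.ofFn (GG t x y)) gB = algebraMap k F (bb t) := by
  unfold gB bb
  rw [ev_GG, map_mul, map_pow]
  simp [zpow_ofNat]

lemma ev_gC : KC72.ev (List.ofFn (GG t x y)) gC = algebraMap k F (cc t) := by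
  unfold gC cc
  rw [ev_GG, map_mul]
  simp

lemma ev_gT1 : KC72.ev (List.ofFn (GG t x y)) gT1 = algebraMap k F (t - 1) := by
  unfold gT1
  rw [ev_GG]
  simp

lemma ev_gbc : KC72.ev (List.ofFn (GG t x y)) gbc =
    algebraMap k F (bb t) - algebraMap k F (cc t) := by
  unfold gbc bb cc
  rw [ev_GG, ← map_sub, show t ^ 2 * (t - 1) - t * (t - 1) = t * (t - 1) ^ 2 by ring, map_mul,
    map_pow]
  simp [zpow_ofNat]

lemma ev_gU (j : Fin 6) : KC72.ev (List.ofFn (GG t x y)) (gU j) = uF t x y j := by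
  fin_cases j
  · show KC72.ev _ (false, [1, 0, 0, 0, 0, 0, 0, 0]) = x
    rw [ev_GG]; simp
  · show KC72.ev _ (false, [0, 1, 0, 0, 0, 0, 0, 0]) = x - algebraMap k F (bb t)
    rw [ev_GG]; simp
  · show KC72.ev _ (false, [0, 0, 1, 0, 0, 0, 0, 0]) = x - algebraMap k F (cc t)
    rw [ev_GG]; simp
  · show KC72.ev _ (false, [0, 0, 0, 1, 0, 0, 0, 0]) = y
    rw [ev_GG]; simp
  · show KC72.ev _ (false, [0, 0, 0, 0, 1, 0, 0, 0]) = y - algebraMap k F (cc t) * x
    rw [ev_GG]; simp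
  · show KC72.ev _ (false, [0, 0, 0, 0, 0, 1, 0, 0]) = y - algebraMap k F (t - 1) * x
    rw [ev_GG]; simp

/-- the classes in terms of the translates -/
lemma ev_gcl [CharZero k] (ht : t ≠ 0) (ht1 : t ≠ 1) (h : Gen (bb t) (cc t) x y) (i : Fin 7)
    (r : Fin 4) : KC72.ev (List.ofFn (GG t x y)) (gcl i r).1 = TT t x y i r ∧
      KC72.ev (List.ofFn (GG t x y)) (gcl i r).1 +
        KC72.ev (List.ofFn (GG t x y)) (gcl i r).2 = 1 := by
  have hg := GGl_ne ht ht1 h
  obtain ⟨x', y', h', hs, hd⟩ := shiftM ht ht1 h hg ev_gB ev_gC ev_gT1 ev_gU i.val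
  have h7 : ∀ s : Fin 7, s.val • (1 : Fin 7) = s := by decide
  have hx : x' = XF t x y i := by
    have := hs 0
    rwa [XF_zero, zero_add, h7] at this
  have d0 : KC72.ev (List.ofFn (GG t x y)) (gD i 0) = x' := hd 0
  have d1 : KC72.ev (List.ofFn (GG t x y)) (gD i 1) = x' - algebraMap k F (bb t) := hd 1
  have d2 : KC72.ev (List.ofFn (GG t x y)) (gD i 2) = x' - algebraMap k F (cc t) := hd 2
  have hb : algebraMap k F (bb t) ≠ 0 := (_root_.map_ne_zero _).mpr (bb_ne ht ht1)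
  have hc : algebraMap k F (cc t) ≠ 0 := (_root_.map_ne_zero _).mpr (cc_ne ht ht1)
  have hbc : algebraMap k F (bb t) - algebraMap k F (cc t) ≠ 0 := by
    rw [← map_sub]; exact (_root_.map_ne_zero _).mpr (bc_ne ht ht1)
  have hcb : algebraMap k F (cc t) - algebraMap k F (bb t) ≠ 0 := by
    intro h; apply hbc; linear_combination -h
  have u0 : x' ≠ 0 := uF_ne h' 0
  have u1 : x' - algebraMap k F (bb t) ≠ 0 := uF_ne h' 1
  have u2 : x' - algebraMap k F (cc t) ≠ 0 := uF_ne h' 2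
  fin_cases r
  · show KC72.ev _ ((((gD i 0).mul gbc).div ((gD i 2).mul gB))) = XF t x y i *
      (algebraMap k F (bb t) - algebraMap k F (cc t)) /
      ((XF t x y i - algebraMap k F (cc t)) * algebraMap k F (bb t)) ∧
      KC72.ev _ ((((gD i 0).mul gbc).div ((gD i 2).mul gB))) +
        KC72.ev _ ((gC.mul (gD i 1)).div ((gD i 2).mul gB)) = 1
    simp only [ev_div hg, ev_mul hg, ev_gB, ev_gC, ev_gbc, d0, d1, d2, ← hx]
    refine ⟨trivial, ?_⟩
    field_simp
    ring
  · show KC72.ev _ (((gD i 1).div gbc).neg) = (XF t x y i - algebraMap k F (bb t)) /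
      (algebraMap k F (cc t) - algebraMap k F (bb t)) ∧
      KC72.ev _ (((gD i 1).div gbc).neg) + KC72.ev _ ((gD i 2).div gbc) = 1
    simp only [KC72.ev_neg, ev_div hg, ev_mul hg, ev_gB, ev_gC, ev_gbc, d0, d1, d2, ← hx]
    constructor
    · rw [← neg_sub (algebraMap k F (bb t)) (algebraMap k F (cc t)), div_neg]
    · field_simp
      ring
  · show KC72.ev _ ((gD i 0).div gC) = XF t x y i / algebraMap k F (cc t) ∧
      KC72.ev _ ((gD i 0).div gC) + KC72.ev _ (((gD i 2).div gC).neg) = 1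
    simp only [KC72.ev_neg, ev_div hg, ev_mul hg, ev_gB, ev_gC, ev_gbc, d0, d1, d2, ← hx]
    refine ⟨trivial, ?_⟩
    field_simp
    ring
  · show KC72.ev _ ((gD i 0).div gB) = XF t x y i / algebraMap k F (bb t) ∧
      KC72.ev _ ((gD i 0).div gB) + KC72.ev _ (((gD i 1).div gB).neg) = 1
    simp only [KC72.ev_neg, ev_div hg, ev_mul hg, ev_gB, ev_gC, ev_gbc, d0, d1, d2, ← hx]
    refine ⟨trivial, ?_⟩
    field_simp
    ring

lemma g7_sols [CharZero k] (ht : t ≠ 0) (ht1 : t ≠ 1) (h : Gen (bb t) (cc t) x y) :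
    Sols (List.ofFn (GG t x y)) g7_cls := by
  intro p hp
  rw [g7_cls_eq, List.mem_map] at hp
  obtain ⟨c, hc, rfl⟩ := hp
  rw [List.mem_range] at hc
  exact (ev_gcl ht ht1 h ⟨c / 4, by omega⟩ ⟨c % 4, by omega⟩).2

/-- **closed elements for a point of order seven** -/
theorem closed7 [CharZero k] (ht : t ≠ 0) (ht1 : t ≠ 1)
    (hind : ∀ m n : ℤ, t ^ m * (t - 1) ^ n = 1 → m = 0 ∧ n = 0)
    (h : Gen (bb t) (cc t) x y) {z : HK F} (hz : z ∈ Cu7 t x y) (hc : Closed z) :
    z ∈ KC k F := by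
  have : CharZero F := charZero_of_injective_algebraMap (algebraMap k F).injective
  have hG := GG_ne ht ht1 h
  have hI : ∀ q : Fin 8 → ℚ, ∑ i, q i • lg (GG t x y i) ∈ V0 k F →
      ∀ i : Fin 8, i.val < 6 → q i = 0 := by
    intro q hq i hi
    refine hI_of (k := k) (by norm_num) (GG t x y) hG ?_ ?_ q hq i hi
    · intro i hi
      fin_cases i <;> simp at hi
      · exact ⟨t, rfl⟩
      · exact ⟨t - 1, rfl⟩
    · intro e c _ he
      apply M7_const ht ht1 h (n := e) (s := c)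
      rw [← he]
      unfold M7
      refine Finset.prod_congr rfl fun j _ => ?_
      fin_cases j <;> rfl
  have hJ : LinearIndependent ℚ (fun i => lg (GG t x y i)) := by
    refine hJ_of (k := k) (r := 6) (by norm_num) (GG t x y) hG hI ?_
    intro e he hp
    have e0 := he 0 (by decide)
    have e1 := he 1 (by decide)
    have e2 := he 2 (by decide)
    have e3 := he 3 (by decide)
    have e4 := he 4 (by decide)
    have e5 := he 5 (by decide)
    rw [Fin.prod_univ_eight, e0, e1, e2, e3, e4, e5] at hp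
    simp only [zpow_zero, one_mul] at hp
    have h6 : GG t x y 6 = algebraMap k F t := rfl
    have h7 : GG t x y 7 = algebraMap k F (t - 1) := rfl
    rw [h6, h7, ← map_zpow₀, ← map_zpow₀, ← map_mul] at hp
    have hp2 : t ^ e 6 * (t - 1) ^ e 7 = 1 := (algebraMap k F).injective (by rw [hp, map_one])
    obtain ⟨e6, e7⟩ := hind _ _ hp2
    funext i
    fin_cases i <;> assumption
  obtain ⟨β, hβ⟩ := closed_of_cert' g7.toCert g7_ok (n := 8) (r := 6) rfl rfl (cls := g7_cls) rfl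
    (G := GG t x y) hG
    (by
      intro i hi
      fin_cases i <;> simp at hi
      · exact ⟨t, rfl⟩
      · exact ⟨t - 1, rfl⟩) hI hJ (g7_sols ht ht1 h) (U7 t x y)
    (by
      intro f hf hf1
      obtain ⟨d, n, hd, rfl⟩ := hf
      obtain ⟨d', n', hd', h2⟩ := hf1
      rcases unit_eq7' ht ht1 hind h hd hd' (n := n) (n' := n') (by rw [← h2]; ring) with h3 | h3
      · exact Or.inl h3
      · right
        obtain ⟨i, r, h4⟩ := h3
        refine ⟨gcl i.val r.val, ?_, ?_⟩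
        · rw [g7_cls_eq, List.mem_map]
          refine ⟨4 * i.val + r.val, ?_, ?_⟩
          · rw [List.mem_range]; omega
          · rw [show (4 * i.val + r.val) / 4 = i.val by omega,
              show (4 * i.val + r.val) % 4 = r.val by omega]
        · rw [(ev_gcl ht ht1 h i r).1]
          exact h4) hz hc
  have h0 : pl (EB g7.toCert k (List.ofFn (GG t x y))) g7.toCert.xi = 0 := pl_nil_right _
  rw [h0, smul_zero] at hβ
  exact (Submodule.Quotient.mk_eq_zero _).mp hβ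

end

end Pool.Agent.K7
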